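import Mathlib
import Pool.Agent.N417.SM.Win
import Pool.Agent.R528.RM.Blocks

/-!
# Brocard's inequality in adapted random sets: the critical density (statements)

A random set of integers is built one integer at a time; `dens μ ℱ A n` is the conditional probability
that `n + 1` is chosen, given the decisions up to `n`. If it is between `a` and `b` times
`log log n / √n`, then for `a > 1/2` all large intervals `(p², q²)`, `p < q` chosen, contain at least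
`m` chosen integers, and for `b < 1/2` infinitely many intervals `(p², (p+1)²)`, `p` and `p + 1`
chosen, contain none.
-/

set_option autoImplicit false

open MeasureTheory Filter Set
open scoped Topology ENNReal

namespace Pool.Agent.N273.BR

open Pool.Agent.R528.RM Pool.Agent.N417.SM

/-- `log log n / √n` -/
noncomputable def LL (n : ℕ) : ℝ := Real.log (Real.log n) / √(n : ℝ)

/-- the two-sided condition on the conditional probabilities -/
def Den {Ω : Type} {m0 : MeasurableSpace Ω} (μ : Measure Ω) (ℱ : Filtration ℕ m0) (A : ℕ → Set Ω) (a b : ℝ) : Prop :=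
  ∀ᵐ ω ∂μ, ∀ᶠ n : ℕ in atTop, a * LL n ≤ dens μ ℱ A n ω ∧ dens μ ℱ A n ω ≤ b * LL n

/-- the weight of the window after `k²`: its emptiness has at least this conditional probability -/
noncomputable def wt (b : ℝ) (k : ℕ) : ℝ := ∏ i ∈ Finset.range (2 * k), (1 - min 1 (max 0 (b * LL (k ^ 2 + i))))

/-- **WLV** Lévy's theorem with bounded weights. -/
def WLV : Prop := ∀ {Ω : Type} {m0 : MeasurableSpace Ω} {μ : Measure Ω} [IsProbabilityMeasure μ]
  {ℱ : Filtration ℕ m0} (s : ℕ → Set Ω) (_ : ∀ n, MeasurableSet[ℱ n] (s n)) (v : ℕ → ℝ)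
  (_ : ∀ n, 0 ≤ v n ∧ v n ≤ 1),
  ∀ᵐ ω ∂μ, (Tendsto (fun n => ∑ k ∈ Finset.range n, v k * (s (k + 1)).indicator (fun _ => (1 : ℝ)) ω) atTop atTop ↔
    Tendsto (fun n => ∑ k ∈ Finset.range n, v k * (μ[(s (k + 1)).indicator (fun _ => (1 : ℝ)) | ℱ k]) ω) atTop atTop)

/-- **DIV** the divergent series. -/
def DIV : Prop := ∀ (a b : ℝ), 0 < a → 0 ≤ b → b < 1 / 2 →
  Tendsto (fun n : ℕ => ∑ k ∈ Finset.range n, wt b k * (min 1 (max 0 (a * LL k))) ^ 2) atTop atTop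

/-- **LOW** below the critical density. -/
def LOW : Prop := ∀ {Ω : Type} {m0 : MeasurableSpace Ω} {μ : Measure Ω} [IsProbabilityMeasure μ]
  {ℱ : Filtration ℕ m0} {A : ℕ → Set Ω} (_ : ∀ n, MeasurableSet[ℱ n] (A n)) {a b : ℝ} (_ : 0 < a) (_ : b < 1 / 2)
  (_ : Den μ ℱ A a b),
  ∀ᵐ ω ∂μ, ∃ᶠ k : ℕ in atTop, ω ∈ A k ∧ ω ∈ A (k + 1) ∧ ∀ r, k ^ 2 < r → r < (k + 1) ^ 2 → ω ∉ A r

/-- **CNW** few chosen integers in a window, starting from an event. -/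
def CNW : Prop := ∀ {Ω : Type} {m0 : MeasurableSpace Ω} {μ : Measure Ω} [IsProbabilityMeasure μ]
  {ℱ : Filtration ℕ m0} {A : ℕ → Set Ω} (_ : ∀ n, MeasurableSet[ℱ n] (A n)) {V : ℕ → Set Ω}
  (_ : ∀ n, MeasurableSet[ℱ n] (V n)) {l u : ℝ} (_ : l ≤ 1) (_ : 0 ≤ u) (t j : ℕ)
  (_ : ∀ n, t ≤ n → n < t + j → ∀ ω, ω ∉ V n → l ≤ dens μ ℱ A n ω ∧ dens μ ℱ A n ω ≤ u)
  {z : ℝ} (_ : 0 < z) (_ : z ≤ 1) (m : ℕ) {C : Set Ω} (_ : MeasurableSet[ℱ t] C),
  μ.real ((C ∩ {ω | cnt A t j ω < m}) \ WV V t j) ≤ (z ^ m)⁻¹ * Real.exp (-(j * (l - z * u))) * μ.real C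

/-- **UPP** above the critical density. -/
def UPP : Prop := ∀ {Ω : Type} {m0 : MeasurableSpace Ω} {μ : Measure Ω} [IsProbabilityMeasure μ]
  {ℱ : Filtration ℕ m0} {A : ℕ → Set Ω} (_ : ∀ n, MeasurableSet[ℱ n] (A n)) {a b : ℝ} (_ : 1 / 2 < a)
  (_ : Den μ ℱ A a b) (m : ℕ),
  ∀ᵐ ω ∂μ, ∀ᶠ k : ℕ in atTop, ∀ q, k < q → ω ∈ A k → ω ∈ A q → m ≤ {r | k ^ 2 < r ∧ r < q ^ 2 ∧ ω ∈ A r}.ncard

end Pool.Agent.N273.BR
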