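import Mathlib
import Pool.Agent.N273.BR.Stm
import Pool.Agent.N417.SM.Opp

set_option autoImplicit false

open MeasureTheory Filter Set
open scoped Topology ENNReal

namespace Pool.Agent.N273.BR

open Pool.Agent.R528.RM Pool.Agent.N417.SM Pool.Agent.N740.HK

lemma loglog_le {k n : ℕ} (h1 : (1 : ℝ) ≤ Real.log k) (h : (k : ℝ) ≤ n) :
    Real.log (Real.log k) ≤ Real.log (Real.log n) := by
  have hk : (0 : ℝ) < k := by
    rcases Nat.eq_zero_or_pos k with h0 | h0
    · rw [h0] at h1; norm_num at h1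
    · exact_mod_cast h0
  exact Real.log_le_log (by linarith) (Real.log_le_log hk h)

lemma loglog_up {k n : ℕ} (c : ℝ) (hc : 0 < c) (hc' : Real.log c ≤ 1) (h1 : (8 : ℝ) ≤ Real.log k)
    (h2 : 1 ≤ Real.log (Real.log k)) (hn : 1 < n) (h : Real.log n ≤ c * Real.log k) :
    Real.log (Real.log n) ≤ 2 * Real.log (Real.log k) := by
  have hn' : (1 : ℝ) < n := by exact_mod_cast hn
  have h3 : 0 < Real.log n := Real.log_pos hn'
  have h4 := Real.log_le_log h3 h
  rw [Real.log_mul hc.ne' (by linarith)] at h4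
  linarith

lemma log3_le : Real.log 3 ≤ 1.1 := by
  have h1 : Real.log 3 ≤ Real.log (Real.exp 1.1) := by
    apply Real.log_le_log (by norm_num)
    have h2 := Real.quadratic_le_exp_of_nonneg (show (0 : ℝ) ≤ 1.1 by norm_num)
    have h3 : Real.exp 1.1 = Real.exp 1 * Real.exp 0.1 := by rw [← Real.exp_add]; norm_num
    have h4 := Real.exp_one_gt_d9
    have h5 := Real.add_one_le_exp (0.1 : ℝ)
    have h6 := Real.quadratic_le_exp_of_nonneg (show (0 : ℝ) ≤ 0.1 by norm_num)
    nlinarith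
  rwa [Real.log_exp] at h1

lemma ana1 {a a' b : ℝ} (ha' : 0 < a') (haa : a' < a) (hb : 0 < b) : ∀ᶠ k : ℕ in atTop,
    (∀ n : ℕ, k ^ 2 ≤ n → n < k ^ 2 + 2 * k * ⌈Real.log k⌉₊ →
      a' * (Real.log (Real.log k) / k) ≤ a * LL n ∧ b * LL n ≤ 2 * b * (Real.log (Real.log k) / k)) ∧
    (∀ n : ℕ, k ≤ n + 1 → n + 1 ≤ k + ⌈Real.log k⌉₊ → b * LL n ≤ 4 * b * (Real.log (Real.log k) / √(k : ℝ))) ∧
    a' * (Real.log (Real.log k) / k) ≤ 1 ∧ k + ⌈Real.log k⌉₊ ≤ k ^ 2 := by
  have hlogk : Tendsto (fun k : ℕ => Real.log k / k) atTop (𝓝 0) :=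
    (Real.isLittleO_log_id_atTop.tendsto_div_nhds_zero).comp tendsto_natCast_atTop_atTop
  have hinv : Tendsto (fun k : ℕ => (1 : ℝ) / k) atTop (𝓝 0) := tendsto_one_div_atTop_nhds_zero_nat
  have hsum := hlogk.add hinv
  rw [add_zero] at hsum
  have hd : 0 < a / a' - 1 := by rw [sub_pos, lt_div_iff₀ ha']; linarith
  have hd2 : 0 < min (a / a' - 1) (min 1 (1 / a')) := lt_min hd (lt_min one_pos (by positivity))
  filter_upwards [hsum.eventually_le_const hd2, tendsto_loglog.eventually_ge_atTop 2,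
    tendsto_logN.eventually_ge_atTop 8, eventually_ge_atTop 16] with k h1 h2 h3 h4
  have hk16 : (16 : ℝ) ≤ k := by exact_mod_cast h4
  have hk0 : (0 : ℝ) < k := by linarith
  obtain ⟨L, hL⟩ : ∃ L, L = Real.log (k : ℝ) := ⟨_, rfl⟩
  obtain ⟨Λ, hΛ⟩ : ∃ Λ, Λ = Real.log L := ⟨_, rfl⟩
  obtain ⟨G, hG⟩ : ∃ G, G = ⌈L⌉₊ := ⟨_, rfl⟩
  have hb1 : (L + 1) / k ≤ a / a' - 1 := by
    rw [add_div, hL]; exact h1.trans (min_le_left _ _)
  have hb2 : (L + 1) / k ≤ 1 := by
    rw [add_div, hL]; exact h1.trans ((min_le_right _ _).trans (min_le_left _ _))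
  have hb3 : (L + 1) / k ≤ 1 / a' := by
    rw [add_div, hL]; exact h1.trans ((min_le_right _ _).trans (min_le_right _ _))
  rw [← hL] at h2 h3 ⊢
  rw [← hΛ] at h2 ⊢
  rw [← hG]
  have hG1 : (G : ℝ) ≤ L + 1 := by rw [hG]; exact (Nat.ceil_lt_add_one (by linarith)).le
  have hGk : (G : ℝ) ≤ k := hG1.trans (by rwa [div_le_one hk0] at hb2)
  have hGk' : G ≤ k := by exact_mod_cast hGk
  have hΛL : Λ ≤ L := by
    rw [hΛ]; exact (Real.log_le_sub_one_of_pos (by linarith)).trans (by linarith)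
  have hLk : L + 1 ≤ k := by rwa [div_le_one hk0] at hb2
  refine ⟨fun n hn1 hn2 => ?_, fun n hn1 hn2 => ?_, ?_, by nlinarith⟩
  · have hn1' : (k : ℝ) ^ 2 ≤ n := by exact_mod_cast hn1
    have hn2' : (n : ℝ) < (k : ℝ) ^ 2 + 2 * k * G := by exact_mod_cast hn2
    have hn0 : (0 : ℝ) < n := by nlinarith
    have hs0 : 0 < √(n : ℝ) := Real.sqrt_pos.2 hn0
    have hs1 : (k : ℝ) ≤ √(n : ℝ) := Real.le_sqrt_of_sq_le hn1'
    have hs2 : √(n : ℝ) ≤ k + (L + 1) := by
      rw [Real.sqrt_le_left (by linarith)]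
      nlinarith
    constructor
    · unfold LL
      have h5 : Λ ≤ Real.log (Real.log n) := by
        rw [hΛ, hL]
        exact loglog_le (by rw [← hL]; linarith) (by nlinarith)
      have h6 : a' * (k + (L + 1)) ≤ a * k := by
        have h7 : L + 1 ≤ (a / a' - 1) * k := by rwa [div_le_iff₀ hk0] at hb1
        have h8 : a' * ((a / a' - 1) * k) = (a - a') * k := by field_simp
        nlinarith [mul_le_mul_of_nonneg_left h7 ha'.le]
      rw [← mul_div_assoc, ← mul_div_assoc, div_le_div_iff₀ hk0 hs0]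
      calc a' * Λ * √(n : ℝ) ≤ a' * Λ * (k + (L + 1)) :=
            mul_le_mul_of_nonneg_left hs2 (by nlinarith)
        _ = Λ * (a' * (k + (L + 1))) := by ring
        _ ≤ Λ * (a * k) := mul_le_mul_of_nonneg_left h6 (by linarith)
        _ = a * k * Λ := by ring
        _ ≤ a * k * Real.log (Real.log n) := mul_le_mul_of_nonneg_left h5 (by nlinarith)
        _ = _ := by ring
    · unfold LL
      have h5 : Real.log (Real.log n) ≤ 2 * Λ := by
        have h6 : Real.log n ≤ 3 * L := by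
          rw [hL]
          have h7 : (n : ℝ) ≤ (k : ℝ) ^ 3 := by nlinarith
          have h8 := Real.log_le_log hn0 h7
          rwa [Real.log_pow] at h8
        have h9 : 0 < Real.log n := by
          have h10 := Real.log_le_log (by linarith) hs1
          rw [Real.log_sqrt hn0.le] at h10
          linarith
        have h11 := Real.log_le_log h9 h6
        rw [Real.log_mul (by norm_num) (by linarith), ← hΛ] at h11
        linarith [log3_le]
      rw [← mul_div_assoc, ← mul_div_assoc, div_le_div_iff₀ hs0 hk0]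
      calc b * Real.log (Real.log n) * k ≤ b * (2 * Λ) * k := by
            apply mul_le_mul_of_nonneg_right _ hk0.le
            exact mul_le_mul_of_nonneg_left h5 hb.le
        _ ≤ b * (2 * Λ) * √(n : ℝ) := mul_le_mul_of_nonneg_left hs1 (by nlinarith)
        _ = _ := by ring
  · have hn1' : (k : ℝ) ≤ n + 1 := by exact_mod_cast hn1
    have hn2' : (n : ℝ) + 1 ≤ k + G := by exact_mod_cast hn2
    have hn0 : (0 : ℝ) < n := by linarith
    have hs0 : 0 < √(n : ℝ) := Real.sqrt_pos.2 hn0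
    have hk1 : 0 < √(k : ℝ) := Real.sqrt_pos.2 hk0
    have hs1 : √(k : ℝ) ≤ 2 * √(n : ℝ) := by
      rw [Real.sqrt_le_left (by positivity), mul_pow, Real.sq_sqrt hn0.le]
      linarith
    unfold LL
    have h5 : Real.log (Real.log n) ≤ 2 * Λ := by
      have h6 : Real.log n ≤ 3 * L := by
        rw [hL]
        have h7 : (n : ℝ) ≤ (k : ℝ) ^ 3 := by
          have h71 : (n : ℝ) ≤ 2 * k := by linarith
          have h72 : (2 : ℝ) ≤ (k : ℝ) ^ 2 := by nlinarith
          calc (n : ℝ) ≤ 2 * k := h71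
            _ ≤ (k : ℝ) ^ 2 * k := mul_le_mul_of_nonneg_right h72 hk0.le
            _ = (k : ℝ) ^ 3 := by ring
        have h8 := Real.log_le_log hn0 h7
        rwa [Real.log_pow] at h8
      have h9 : 0 < Real.log n := Real.log_pos (by linarith)
      have h11 := Real.log_le_log h9 h6
      rw [Real.log_mul (by norm_num) (by linarith), ← hΛ] at h11
      linarith [log3_le]
    rw [← mul_div_assoc, ← mul_div_assoc, div_le_div_iff₀ hs0 hk1]
    calc b * Real.log (Real.log n) * √(k : ℝ) ≤ b * (2 * Λ) * √(k : ℝ) := by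
          apply mul_le_mul_of_nonneg_right _ hk1.le
          exact mul_le_mul_of_nonneg_left h5 hb.le
      _ ≤ b * (2 * Λ) * (2 * √(n : ℝ)) := mul_le_mul_of_nonneg_left hs1 (by nlinarith)
      _ = _ := by ring
  · rw [← mul_div_assoc, div_le_one hk0]
    have h5 : (L + 1) ≤ 1 / a' * k := by rwa [div_le_iff₀ hk0] at hb3
    have h6 : a' * (1 / a' * k) = k := by field_simp
    nlinarith [mul_le_mul_of_nonneg_left h5 ha'.le, mul_le_mul_of_nonneg_left hΛL ha'.le]

end Pool.Agent.N273.BR
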