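import Mathlib
import Pool.Agent.N273.BR.Stm

/-!
# Brocard's inequality in adapted random sets: the second order of the critical density (statements)
-/

set_option autoImplicit false

open MeasureTheory Filter Set
open scoped Topology ENNReal

namespace Pool.Agent.N273.BR

open Pool.Agent.R528.RM Pool.Agent.N417.SM

/-- `(log log n + c log log log n) / (2 √n)` -/
noncomputable def lam (c : ℝ) (n : ℕ) : ℝ :=
  (Real.log (Real.log n) + c * Real.log (Real.log (Real.log n))) / (2 * √(n : ℝ))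

/-- two-sided condition on the conditional probabilities -/
def Den2 {Ω : Type} {m0 : MeasurableSpace Ω} (μ : Measure Ω) (ℱ : Filtration ℕ m0) (A : ℕ → Set Ω) (lo hi : ℕ → ℝ) : Prop :=
  ∀ᵐ ω ∂μ, ∀ᶠ n : ℕ in atTop, lo n ≤ dens μ ℱ A n ω ∧ dens μ ℱ A n ω ≤ hi n

/-- upper bound for the conditional probabilities in the window after `k²` -/
noncomputable def uu (c : ℝ) (k : ℕ) : ℝ :=
  (Real.log (Real.log ((k : ℝ) ^ 2)) + c * Real.log (Real.log (Real.log ((k : ℝ) ^ 2))) + 1) / (2 * k)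

/-- lower bound for the conditional probabilities in the window after `k²` -/
noncomputable def ll (δ : ℝ) (k : ℕ) : ℝ := δ * (Real.log (Real.log k) / (2 * k))

/-- weight of the window after `k²`: lower bound for the probability of exactly `j` members -/
noncomputable def wj (δ c : ℝ) (j k : ℕ) : ℝ := ((2 * k).choose j : ℝ) * ll δ k ^ j * (1 - uu c k) ^ (2 * k - j)

/-- **SR3** the two series. -/
def SR3 : Prop := (∀ s : ℝ, 1 < s → Summable (fun n : ℕ =>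
      1 / (((n : ℝ) + 3) * Real.log ((n : ℝ) + 3) * Real.log (Real.log ((n : ℝ) + 3)) ^ s))) ∧
    ¬ Summable (fun n : ℕ => 1 / (((n : ℝ) + 3) * Real.log ((n : ℝ) + 3) * Real.log (Real.log ((n : ℝ) + 3))))

/-- **WN2** the bounds in a window. -/
def WN2 : Prop := ∀ (δ c : ℝ), 0 < δ → δ ≤ 1 / 4 → ∀ᶠ k : ℕ in atTop,
  (∀ n : ℕ, k ^ 2 ≤ n → n < k ^ 2 + 2 * k → ll δ k ≤ δ * LL n ∧ lam c n ≤ uu c k) ∧
  0 ≤ ll δ k ∧ ll δ k ≤ uu c k ∧ uu c k ≤ 1

/-- **DV2** the divergent series. -/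
def DV2 : Prop := ∀ (δ c : ℝ) (j : ℕ), 0 < δ → c ≤ j + 3 →
  ¬ Summable (fun k : ℕ => |wj δ c j k| * (δ * LL k) ^ 2)

/-- **LW2** below the critical density: exactly `j` members. -/
def LW2 : Prop := ∀ {Ω : Type} {m0 : MeasurableSpace Ω} {μ : Measure Ω} [IsProbabilityMeasure μ]
  {ℱ : Filtration ℕ m0} {A : ℕ → Set Ω} (_ : ∀ n, MeasurableSet[ℱ n] (A n)) {δ c : ℝ} (_ : 0 < δ) (j : ℕ) (_ : c ≤ j + 3)
  (_ : Den2 μ ℱ A (fun n => δ * LL n) (lam c)),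
  ∀ᵐ ω ∂μ, ∃ᶠ k : ℕ in atTop, ω ∈ A k ∧ ω ∈ A (k + 1) ∧ cnt A (k ^ 2) (2 * k) ω = j

/-- **CW2** few chosen integers in a window, starting from an event, sharp form. -/
def CW2 : Prop := ∀ {Ω : Type} {m0 : MeasurableSpace Ω} {μ : Measure Ω} [IsProbabilityMeasure μ]
  {ℱ : Filtration ℕ m0} {A : ℕ → Set Ω} (_ : ∀ n, MeasurableSet[ℱ n] (A n)) {V : ℕ → Set Ω}
  (_ : ∀ n, MeasurableSet[ℱ n] (V n)) {l u : ℝ} (_ : 0 ≤ l) (_ : l ≤ 1 / 2) (_ : 0 ≤ u) (t J : ℕ)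
  (_ : ∀ n, t ≤ n → n < t + J → ∀ ω, ω ∉ V n → l ≤ dens μ ℱ A n ω ∧ dens μ ℱ A n ω ≤ u)
  (m : ℕ) (_ : 1 ≤ J * u) {C : Set Ω} (_ : MeasurableSet[ℱ t] C),
  μ.real ((C ∩ {ω | cnt A t J ω < m + 1}) \ WV V t J) ≤
    (m + 1) * 2 ^ m * (J * u) ^ m * Real.exp (-(J * l)) * μ.real C

end Pool.Agent.N273.BR
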