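import Mathlib
import Pool.Agent.N273.BR.Ana

set_option autoImplicit false

open MeasureTheory Filter Set
open scoped Topology ENNReal

namespace Pool.Agent.N273.BR

open Pool.Agent.R528.RM Pool.Agent.N417.SM Pool.Agent.N740.HK

section

variable {Ω : Type} {m0 : MeasurableSpace Ω} {μ : Measure Ω} [IsProbabilityMeasure μ]
  {ℱ : Filtration ℕ m0} {A : ℕ → Set Ω}

/-- two chosen integers -/
def PC (A V : ℕ → Set Ω) (k g : ℕ) : Set Ω := (A k \ V (k - 1)) ∩ (A (k + g) \ V (k + g - 1))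

lemma PC_meas (hA : ∀ n, MeasurableSet[ℱ n] (A n)) {V : ℕ → Set Ω} (hV : ∀ n, MeasurableSet[ℱ n] (V n))
    (k g : ℕ) : MeasurableSet[ℱ (k + g)] (PC A V k g) := by
  unfold PC
  exact ((ℱ.mono (by omega) _ (hA k)).diff (ℱ.mono (by omega) _ (hV _))).inter
    ((hA _).diff (ℱ.mono (by omega) _ (hV _)))

lemma PC_le (hA : ∀ n, MeasurableSet[ℱ n] (A n)) {V : ℕ → Set Ω} (hV : ∀ n, MeasurableSet[ℱ n] (V n))
    {k g : ℕ} (hk : 1 ≤ k) (hg : 1 ≤ g) {u : ℝ} (hu : 0 ≤ u)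
    (h1 : ∀ ω, ω ∉ V (k - 1) → dens μ ℱ A (k - 1) ω ≤ u)
    (h2 : ∀ ω, ω ∉ V (k + g - 1) → dens μ ℱ A (k + g - 1) ω ≤ u) :
    μ.real (PC A V k g) ≤ u * u := by
  have e1 := upper_meas (μ := μ) hA (k - 1) (B := (V (k - 1))ᶜ) (hV _).compl (u := u) (fun ω h => h1 ω h)
  rw [show k - 1 + 1 = k by omega] at e1
  have hB : MeasurableSet[ℱ (k + g - 1)] ((A k \ V (k - 1)) ∩ (V (k + g - 1))ᶜ) :=
    ((ℱ.mono (by omega) _ (hA k)).diff (ℱ.mono (by omega) _ (hV _))).inter (hV _).compl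
  have e2 := upper_meas (μ := μ) hA (k + g - 1) hB (u := u) (fun ω h => h2 ω h.2)
  rw [show k + g - 1 + 1 = k + g by omega] at e2
  have e3 : μ.real ((V (k - 1))ᶜ) ≤ 1 := measureReal_le_one
  have e4 : μ.real ((A k \ V (k - 1)) ∩ (V (k + g - 1))ᶜ) ≤ μ.real ((V (k - 1))ᶜ ∩ A k) :=
    measureReal_mono (fun ω h => ⟨h.1.2, h.1.1⟩)
  have e5 : μ.real (PC A V k g) ≤ μ.real ((A k \ V (k - 1)) ∩ (V (k + g - 1))ᶜ ∩ A (k + g)) :=
    measureReal_mono (fun ω h => ⟨⟨h.1, h.2.2⟩, h.2.1⟩)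
  calc μ.real (PC A V k g) ≤ u * μ.real ((A k \ V (k - 1)) ∩ (V (k + g - 1))ᶜ) := e5.trans e2
    _ ≤ u * (u * 1) := by
        apply mul_le_mul_of_nonneg_left _ hu
        exact e4.trans (e1.trans (mul_le_mul_of_nonneg_left e3 hu))
    _ = u * u := by ring

lemma geo {x : ℝ} (h0 : 0 ≤ x) (h1 : x ≤ 1 / 2) (G : ℕ) : ∑ g ∈ Finset.Icc 1 G, x ^ g ≤ 2 * x := by
  have h2 : ∀ G : ℕ, ∑ g ∈ Finset.Icc 1 G, x ^ g ≤ 2 * x * (1 - x ^ G) := by
    intro G
    induction G with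
    | zero => simp
    | succ G ih =>
      rw [Finset.sum_Icc_succ_top (by omega)]
      have h3 : 0 ≤ x ^ G := pow_nonneg h0 G
      rw [pow_succ]
      nlinarith [mul_nonneg h0 h3, mul_nonneg (mul_nonneg h0 h3) (show 0 ≤ 1 / 2 - x by linarith)]
  refine (h2 G).trans ?_
  nlinarith [pow_nonneg h0 G, mul_nonneg h0 (pow_nonneg h0 G)]

lemma cnt_card (t j : ℕ) (ω : Ω) : cnt A t j ω ≤ {r | t < r ∧ r ≤ t + j ∧ ω ∈ A r}.ncard := by
  classical
  unfold cnt
  rw [← Finset.card_filter]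
  have hfin : {r | t < r ∧ r ≤ t + j ∧ ω ∈ A r}.Finite := (Set.finite_Iic (t + j)).subset fun r h => h.2.1
  have h1 : ((Finset.range j).filter (fun r => ω ∈ A (t + 1 + r))).card =
      (((Finset.range j).filter (fun r => ω ∈ A (t + 1 + r))).image (fun r => t + 1 + r)).card := by
    rw [Finset.card_image_of_injective]
    intro x y h
    simpa using h
  rw [h1, ← Set.ncard_coe_finset]
  refine Set.ncard_le_ncard ?_ hfin
  intro r hr
  rw [Finset.mem_coe, Finset.mem_image] at hr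
  obtain ⟨i, hi, rfl⟩ := hr
  rw [Finset.mem_filter, Finset.mem_range] at hi
  exact ⟨by omega, by omega, hi.2⟩

end

/-- the series -/
lemma ser {γ B : ℝ} (hγ : 1 < γ) : Summable (fun k : ℕ =>
    B * (Real.log (Real.log k)) ^ 2 / k * Real.exp (-(γ * Real.log (Real.log k)))) := by
  obtain ⟨s, hs⟩ : ∃ s, s = (1 + γ) / 2 := ⟨_, rfl⟩
  have hs1 : 1 < s := by rw [hs]; linarith
  have hs2 : 0 < γ - s := by rw [hs]; linarith
  have hlo : Tendsto (fun k : ℕ => Real.log (Real.log k) / (Real.log k) ^ ((γ - s) / 2)) atTop (𝓝 0) :=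
    ((isLittleO_log_rpow_atTop (show (0 : ℝ) < (γ - s) / 2 by linarith)).tendsto_div_nhds_zero).comp tendsto_logN
  refine Summable.of_norm_bounded_eventually_nat ((ser_conv hs1).mul_left (|B| * 2 ^ s)) ?_
  filter_upwards [hlo.eventually_le_const one_pos, tendsto_loglog.eventually_ge_atTop 1,
    tendsto_logN.eventually_ge_atTop 8, eventually_ge_atTop 16] with k h1 h2 h3 h4
  have hk16 : (16 : ℝ) ≤ k := by exact_mod_cast h4
  have hk0 : (0 : ℝ) < k := by linarith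
  obtain ⟨L, hL⟩ : ∃ L, L = Real.log (k : ℝ) := ⟨_, rfl⟩
  rw [← hL] at h1 h2 h3 ⊢
  have hL0 : 0 < L := by linarith
  have h5 : Real.log L ≤ L ^ ((γ - s) / 2) := by
    rwa [div_le_one (Real.rpow_pos_of_pos hL0 _)] at h1
  have h6 : (Real.log L) ^ 2 ≤ L ^ (γ - s) := by
    have h7 : (L ^ ((γ - s) / 2)) ^ 2 = L ^ (γ - s) := by
      rw [← Real.rpow_natCast, ← Real.rpow_mul hL0.le]
      congr 1
      push_cast
      ring
    rw [← h7]
    exact pow_le_pow_left₀ (by linarith) h5 2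
  have h8 : Real.exp (-(γ * Real.log L)) = (L ^ γ)⁻¹ := by
    rw [Real.exp_neg, Real.rpow_def_of_pos hL0, mul_comm]
  have h9 : Real.log ((k : ℝ) + 1) ≤ 2 * L := by
    have h10 : (k : ℝ) + 1 ≤ (k : ℝ) ^ 2 := by nlinarith
    have h11 := Real.log_le_log (by linarith) h10
    rw [Real.log_pow, ← hL] at h11
    exact_mod_cast h11
  have h12 : 0 < Real.log ((k : ℝ) + 1) := Real.log_pos (by linarith)
  have h13 : (Real.log ((k : ℝ) + 1)) ^ s ≤ 2 ^ s * L ^ s := by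
    rw [← Real.mul_rpow (by norm_num) hL0.le]
    exact Real.rpow_le_rpow h12.le h9 (by linarith)
  rw [h8, norm_mul, norm_div, norm_mul, Real.norm_eq_abs, Real.norm_of_nonneg (by positivity),
    Real.norm_of_nonneg hk0.le, Real.norm_of_nonneg (by positivity)]
  have h14 : L ^ (γ - s) * (L ^ γ)⁻¹ = (L ^ s)⁻¹ := by
    rw [← Real.rpow_neg hL0.le, ← Real.rpow_neg hL0.le, ← Real.rpow_add hL0]
    congr 1
    ring
  have h15 : (L ^ s)⁻¹ ≤ 2 ^ s * ((Real.log ((k : ℝ) + 1)) ^ s)⁻¹ := by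
    have p1 : 0 < L ^ s := Real.rpow_pos_of_pos hL0 _
    have p2 : 0 < (Real.log ((k : ℝ) + 1)) ^ s := Real.rpow_pos_of_pos h12 _
    rw [← div_eq_mul_inv, inv_eq_one_div, div_le_div_iff₀ p1 p2]
    linarith
  calc |B| * Real.log L ^ 2 / k * (L ^ γ)⁻¹ = |B| / k * (Real.log L ^ 2 * (L ^ γ)⁻¹) := by ring
    _ ≤ |B| / k * (L ^ (γ - s) * (L ^ γ)⁻¹) := by
        apply mul_le_mul_of_nonneg_left _ (by positivity)
        exact mul_le_mul_of_nonneg_right h6 (by positivity)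
    _ = |B| / k * (L ^ s)⁻¹ := by rw [h14]
    _ ≤ |B| / k * (2 ^ s * ((Real.log ((k : ℝ) + 1)) ^ s)⁻¹) :=
        mul_le_mul_of_nonneg_left h15 (by positivity)
    _ = |B| * 2 ^ s * (1 / (k * Real.log ((k : ℝ) + 1) ^ s)) := by
        field_simp

/-- **above the critical density** -/
theorem upp_of (hC : CNW) : UPP := by
  intro Ω m0 μ _ ℱ A hA a b0 ha hden0 m
  classical
  obtain ⟨b, hb⟩ : ∃ b, b = max b0 1 := ⟨_, rfl⟩
  have hb1 : 1 ≤ b := by rw [hb]; exact le_max_right _ _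
  have hb0 : b0 ≤ b := by rw [hb]; exact le_max_left _ _
  have hden : Den μ ℱ A a b := by
    filter_upwards [hden0] with ω hω
    filter_upwards [hω, tendsto_loglog.eventually_ge_atTop 0] with n hn h0
    have hLL : 0 ≤ LL n := div_nonneg h0 (Real.sqrt_nonneg _)
    exact ⟨hn.1, hn.2.trans (mul_le_mul_of_nonneg_right hb0 hLL)⟩
  obtain ⟨a'', ha''⟩ : ∃ a'', a'' = 1 / 2 + (a - 1 / 2) / 3 := ⟨_, rfl⟩
  obtain ⟨a', ha'⟩ : ∃ a', a' = 1 / 2 + 2 * (a - 1 / 2) / 3 := ⟨_, rfl⟩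
  have g1 : 1 / 2 < a'' := by rw [ha'']; linarith
  have g2 : a'' < a' := by rw [ha'', ha']; linarith
  have g3 : a' < a := by rw [ha']; linarith
  obtain ⟨z, hz⟩ : ∃ z, z = min 1 ((a' - a'') / (2 * b)) := ⟨_, rfl⟩
  have hz0 : 0 < z := by rw [hz]; exact lt_min one_pos (div_pos (by linarith) (by linarith))
  have hz1 : z ≤ 1 := by rw [hz]; exact min_le_left _ _
  have hz2 : z * (2 * b) ≤ a' - a'' := by
    have h1 : z ≤ (a' - a'') / (2 * b) := by rw [hz]; exact min_le_right _ _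
    rwa [le_div_iff₀ (by linarith)] at h1
  set V : ℕ → Set Ω := fun n => {ω | ¬ (a * LL n ≤ dens μ ℱ A n ω ∧ dens μ ℱ A n ω ≤ b * LL n)} with hVd
  have hV : ∀ n, MeasurableSet[ℱ n] (V n) := by
    intro n
    have h1 : MeasurableSet {x : ℝ | ¬ (a * LL n ≤ x ∧ x ≤ b * LL n)} := by
      have h2 : {x : ℝ | ¬ (a * LL n ≤ x ∧ x ≤ b * LL n)} = (Set.Icc (a * LL n) (b * LL n))ᶜ := by
        ext x; simp [Set.mem_Icc]
      rw [h2]
      exact measurableSet_Icc.compl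
    exact (dens_meas (μ := μ) n).measurable h1
  have hnV : ∀ n ω, ω ∉ V n → a * LL n ≤ dens μ ℱ A n ω ∧ dens μ ℱ A n ω ≤ b * LL n := by
    intro n ω h
    by_contra h2
    exact h h2
  obtain ⟨γ, hγ⟩ : ∃ γ, γ = 2 * a'' := ⟨_, rfl⟩
  have hγ1 : 1 < γ := by rw [hγ]; linarith
  set Gk : ℕ → ℕ := fun k => ⌈Real.log k⌉₊ with hGk
  set Bd : ℕ → Set Ω := fun k =>
    (⋃ g ∈ Finset.Icc 1 (Gk k), (PC A V k g ∩ {ω | cnt A (k ^ 2) (2 * k * g) ω < m}) \ WV V (k ^ 2) (2 * k * g)) ∪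
      (univ ∩ {ω | cnt A (k ^ 2) (2 * k * Gk k) ω < m}) \ WV V (k ^ 2) (2 * k * Gk k) with hBd
  set T : ℕ → ℝ := fun k => (32 * b ^ 2 * (z ^ m)⁻¹) * (Real.log (Real.log k)) ^ 2 / k *
    Real.exp (-(γ * Real.log (Real.log k))) + (z ^ m)⁻¹ * (1 / (k : ℝ) ^ 2) with hT
  have hbound : ∀ᶠ k : ℕ in atTop, μ.real (Bd k) ≤ T k := by
    filter_upwards [ana1 (a := a) (a' := a') (b := b) (by linarith) g3 (by linarith),
      tendsto_loglog.eventually_ge_atTop 2, eventually_ge_atTop 16] with k hk h2 h4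
    obtain ⟨q1, q2, q3, q4⟩ := hk
    have hk16 : (16 : ℝ) ≤ k := by exact_mod_cast h4
    have hk0 : (0 : ℝ) < k := by linarith
    obtain ⟨Λ, hΛ⟩ : ∃ Λ, Λ = Real.log (Real.log k) := ⟨_, rfl⟩
    rw [← hΛ] at q1 q2 q3 h2
    have hwin : ∀ g : ℕ, g ≤ Gk k → ∀ C : Set Ω, MeasurableSet[ℱ (k ^ 2)] C →
        μ.real ((C ∩ {ω | cnt A (k ^ 2) (2 * k * g) ω < m}) \ WV V (k ^ 2) (2 * k * g)) ≤
          (z ^ m)⁻¹ * Real.exp (-(γ * Λ)) ^ g * μ.real C := by
      intro g hg C hCm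
      have h5 := hC (μ := μ) hA hV (l := a' * (Λ / k)) (u := 2 * b * (Λ / k)) q3 (by positivity) (k ^ 2) (2 * k * g)
        (fun n hn1 hn2 ω hω => by
          have h6 := hnV n ω hω
          have h7 := q1 n hn1 (lt_of_lt_of_le hn2 (Nat.add_le_add_left (Nat.mul_le_mul_left _ hg) _))
          exact ⟨h7.1.trans h6.1, h6.2.trans h7.2⟩) hz0 hz1 m hCm
      refine h5.trans ?_
      apply mul_le_mul_of_nonneg_right _ measureReal_nonneg
      apply mul_le_mul_of_nonneg_left _ (by positivity)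
      rw [← Real.exp_nat_mul]
      apply Real.exp_le_exp.2
      have h6 : a'' * (Λ / k) ≤ a' * (Λ / k) - z * (2 * b * (Λ / k)) := by
        have h7 : 0 ≤ Λ / k := by positivity
        nlinarith [mul_le_mul_of_nonneg_right hz2 h7]
      have h8 : ((2 * k * g : ℕ) : ℝ) * (a'' * (Λ / k)) = g * (γ * Λ) := by
        push_cast
        rw [hγ]
        field_simp
      have h9 := mul_le_mul_of_nonneg_left h6 (Nat.cast_nonneg (α := ℝ) (2 * k * g))
      rw [h8] at h9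
      linarith
    have hpair : ∀ g ∈ Finset.Icc 1 (Gk k), μ.real (PC A V k g) ≤ 16 * b ^ 2 * Λ ^ 2 / k := by
      intro g hg
      rw [Finset.mem_Icc] at hg
      have h5 := PC_le (μ := μ) hA hV (k := k) (g := g) (by omega) hg.1 (u := 4 * b * (Λ / √(k : ℝ))) (by positivity)
        (fun ω hω => (hnV _ ω hω).2.trans (q2 _ (by omega) (by
          have : 1 ≤ ⌈Real.log (k : ℝ)⌉₊ := hg.1.trans hg.2
          omega)))
        (fun ω hω => (hnV _ ω hω).2.trans (q2 _ (by omega) (by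
          have : g ≤ ⌈Real.log (k : ℝ)⌉₊ := hg.2
          omega)))
      refine h5.trans (le_of_eq ?_)
      have h6 : √(k : ℝ) * √(k : ℝ) = k := Real.mul_self_sqrt hk0.le
      have h7 : √(k : ℝ) ≠ 0 := (Real.sqrt_pos.2 hk0).ne'
      calc 4 * b * (Λ / √(k : ℝ)) * (4 * b * (Λ / √(k : ℝ))) = 16 * b ^ 2 * Λ ^ 2 / (√(k : ℝ) * √(k : ℝ)) := by
            field_simp
            ring
        _ = _ := by rw [h6]
    have hx0 : 0 ≤ Real.exp (-(γ * Λ)) := (Real.exp_pos _).le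
    have hx1 : Real.exp (-(γ * Λ)) ≤ 1 / 2 := by
      have h5 : Real.exp (-(γ * Λ)) ≤ Real.exp (-1) := Real.exp_le_exp.2 (by nlinarith)
      have h6 : Real.exp (-1 : ℝ) ≤ 1 / 2 := by
        rw [Real.exp_neg, inv_eq_one_div]
        apply one_div_le_one_div_of_le (by norm_num)
        have := Real.exp_one_gt_d9
        linarith
      exact h5.trans h6
    have e1 : μ.real (⋃ g ∈ Finset.Icc 1 (Gk k),
        (PC A V k g ∩ {ω | cnt A (k ^ 2) (2 * k * g) ω < m}) \ WV V (k ^ 2) (2 * k * g)) ≤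
        (32 * b ^ 2 * (z ^ m)⁻¹) * Λ ^ 2 / k * Real.exp (-(γ * Λ)) := by
      refine (measureReal_biUnion_finset_le _ _).trans ?_
      calc ∑ g ∈ Finset.Icc 1 (Gk k), μ.real ((PC A V k g ∩ {ω | cnt A (k ^ 2) (2 * k * g) ω < m}) \
            WV V (k ^ 2) (2 * k * g)) ≤
          ∑ g ∈ Finset.Icc 1 (Gk k), (z ^ m)⁻¹ * (16 * b ^ 2 * Λ ^ 2 / k) * Real.exp (-(γ * Λ)) ^ g := by
            refine Finset.sum_le_sum fun g hg => ?_
            have hg' := Finset.mem_Icc.1 hg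
            refine (hwin g hg'.2 _ (ℱ.mono (by have : k + Gk k ≤ k ^ 2 := q4; omega) _ (PC_meas hA hV k g))).trans ?_
            have h5 := hpair g hg
            have h6 : 0 ≤ (z ^ m)⁻¹ * Real.exp (-(γ * Λ)) ^ g := by positivity
            calc (z ^ m)⁻¹ * Real.exp (-(γ * Λ)) ^ g * μ.real (PC A V k g) ≤
                (z ^ m)⁻¹ * Real.exp (-(γ * Λ)) ^ g * (16 * b ^ 2 * Λ ^ 2 / k) :=
                  mul_le_mul_of_nonneg_left h5 h6
              _ = _ := by ring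
        _ = (z ^ m)⁻¹ * (16 * b ^ 2 * Λ ^ 2 / k) * ∑ g ∈ Finset.Icc 1 (Gk k), Real.exp (-(γ * Λ)) ^ g := by
            rw [Finset.mul_sum]
        _ ≤ (z ^ m)⁻¹ * (16 * b ^ 2 * Λ ^ 2 / k) * (2 * Real.exp (-(γ * Λ))) :=
            mul_le_mul_of_nonneg_left (geo hx0 hx1 _) (by positivity)
        _ = _ := by ring
    have e2 : μ.real ((univ ∩ {ω | cnt A (k ^ 2) (2 * k * Gk k) ω < m}) \ WV V (k ^ 2) (2 * k * Gk k)) ≤
        (z ^ m)⁻¹ * (1 / (k : ℝ) ^ 2) := by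
      refine (hwin (Gk k) le_rfl univ MeasurableSet.univ).trans ?_
      have h5 : μ.real (univ : Set Ω) ≤ 1 := measureReal_le_one
      have h6 : Real.exp (-(γ * Λ)) ^ Gk k ≤ 1 / (k : ℝ) ^ 2 := by
        rw [← Real.exp_nat_mul]
        have h7 : Real.log k ≤ Gk k := Nat.le_ceil _
        have h8 : 0 < Real.log k := Real.log_pos (by linarith)
        have h9 : Real.exp ((Gk k : ℝ) * -(γ * Λ)) ≤ Real.exp (-(2 * Real.log k)) := by
          apply Real.exp_le_exp.2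
          have h10 : 2 ≤ γ * Λ := by nlinarith
          have h11 : Real.log k * 2 ≤ (Gk k : ℝ) * (γ * Λ) := mul_le_mul h7 h10 (by norm_num) (by linarith)
          linarith
        refine h9.trans (le_of_eq ?_)
        rw [Real.exp_neg, two_mul, Real.exp_add, Real.exp_log hk0]
        field_simp
      have h7 : 0 ≤ (z ^ m)⁻¹ := by positivity
      calc (z ^ m)⁻¹ * Real.exp (-(γ * Λ)) ^ Gk k * μ.real (univ : Set Ω) ≤
          (z ^ m)⁻¹ * Real.exp (-(γ * Λ)) ^ Gk k * 1 := mul_le_mul_of_nonneg_left h5 (by positivity)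
        _ = (z ^ m)⁻¹ * Real.exp (-(γ * Λ)) ^ Gk k := mul_one _
        _ ≤ _ := mul_le_mul_of_nonneg_left h6 h7
    refine (measureReal_union_le _ _).trans ?_
    simp only [hT]
    rw [← hΛ]
    exact add_le_add e1 e2
  have hTs : Summable T := by
    refine (ser hγ1).add ?_
    exact (Real.summable_one_div_nat_pow.2 (by norm_num)).mul_left _
  have hsum : Summable (fun k => μ.real (Bd k)) := by
    refine Summable.of_norm_bounded_eventually_nat hTs ?_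
    filter_upwards [hbound] with k hk
    rwa [Real.norm_of_nonneg measureReal_nonneg]
  have h3 : ∑' k, μ (Bd k) ≠ ∞ := by
    have h4 : ∀ k, μ (Bd k) = ENNReal.ofReal (μ.real (Bd k)) := fun k => by
      rw [ofReal_measureReal (measure_ne_top _ _)]
    simp_rw [h4]
    exact hsum.tsum_ofReal_ne_top
  filter_upwards [ae_eventually_notMem h3, hden] with ω h4 h5
  obtain ⟨n₀, hn₀⟩ := eventually_atTop.1 h5
  have hok : ∀ n, n₀ ≤ n → ω ∉ V n := by
    intro n hn h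
    exact h (hn₀ n hn)
  filter_upwards [h4, eventually_ge_atTop (n₀ + 16)] with k hk1 hk2 q hq hωk hωq
  have hk16 : (16 : ℝ) ≤ k := by exact_mod_cast (show 16 ≤ k by omega)
  have hlog : 1 < Real.log k := by
    have h6 : Real.exp 1 < k := by have := Real.exp_one_lt_d9; linarith
    exact (Real.lt_log_iff_exp_lt (by linarith)).2 h6
  have hG1 : 1 ≤ Gk k := Nat.one_le_ceil_iff.2 (by linarith)
  have hkk : n₀ ≤ k ^ 2 := by nlinarith
  have hWV : ∀ j, ω ∉ WV V (k ^ 2) j := by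
    rintro j ⟨n, hn1, _, hn3⟩
    exact hok n (hkk.trans hn1) hn3
  obtain ⟨g, hg⟩ : ∃ g, g = min (q - k) (Gk k) := ⟨_, rfl⟩
  have hg1 : 1 ≤ g := by rw [hg]; exact le_min (by omega) hG1
  have hgq : g ≤ q - k := by rw [hg]; exact min_le_left _ _
  have hcnt : m ≤ cnt A (k ^ 2) (2 * k * g) ω := by
    by_contra hlt
    push Not at hlt
    apply hk1
    rcases Nat.lt_or_ge (Gk k) (q - k) with hc | hc
    · right
      have : g = Gk k := by rw [hg]; exact min_eq_right hc.le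
      rw [this] at hlt
      exact ⟨⟨mem_univ _, hlt⟩, hWV _⟩
    · left
      have hgq' : g = q - k := by rw [hg]; exact min_eq_left hc
      rw [mem_iUnion₂]
      refine ⟨g, Finset.mem_Icc.2 ⟨hg1, by rw [hgq']; exact hc⟩, ⟨⟨⟨⟨hωk, hok _ (by omega)⟩, ⟨?_, hok _ (by omega)⟩⟩, hlt⟩, hWV _⟩⟩
      have : k + g = q := by omega
      rw [this]
      exact hωq
  refine hcnt.trans ((cnt_card _ _ _).trans (Set.ncard_le_ncard ?_ ?_))
  · rintro r ⟨r1, r2, r3⟩
    refine ⟨r1, ?_, r3⟩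
    have h6 : k + g ≤ q := by omega
    have h7 : (k + g) ^ 2 ≤ q ^ 2 := Nat.pow_le_pow_left h6 2
    have h8 : (k + g) ^ 2 = k ^ 2 + 2 * k * g + g ^ 2 := by ring
    have h9 : 1 ≤ g ^ 2 := Nat.one_le_pow _ _ hg1
    omega
  · exact (Set.finite_Iio (q ^ 2)).subset fun r h => h.2.1

end Pool.Agent.N273.BR
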