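import Mathlib
import Pool.Agent.N273.BR.Stm2
import Pool.Agent.N273.BR.Upp

set_option autoImplicit false

open MeasureTheory Filter Set
open scoped Topology ENNReal

namespace Pool.Agent.N273.BR

open Pool.Agent.R528.RM Pool.Agent.N417.SM Pool.Agent.N740.HK

/-- the numerator -/
noncomputable def XX (c : ℝ) (k : ℕ) : ℝ :=
  Real.log (Real.log ((k : ℝ) ^ 2)) + c * Real.log (Real.log (Real.log ((k : ℝ) ^ 2)))

lemma ana2 {c : ℝ} (hc : 0 < c) (m : ℕ) : ∀ᶠ k : ℕ in atTop,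
    (∀ g : ℕ, ∀ n : ℕ, k ^ 2 ≤ n → n < k ^ 2 + 2 * k * g → XX c k / (2 * (k + g)) ≤ lam c n) ∧
    (⌈Real.log k⌉₊ : ℝ) ^ 2 * XX c k ≤ k ∧ 4 ≤ XX c k ∧ Real.log (Real.log k) ^ m ≤ k ∧
    Real.exp (-(XX c k)) ≤ 1 / (Real.log k * Real.log (Real.log k) ^ c) := by
  have hl3 : Tendsto (fun k : ℕ => Real.log k ^ 3 / k) atTop (𝓝 0) :=
    (Real.isLittleO_pow_log_id_atTop (n := 3)).tendsto_div_nhds_zero.comp tendsto_natCast_atTop_atTop
  have hlm : Tendsto (fun k : ℕ => Real.log k ^ m / k) atTop (𝓝 0) :=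
    (Real.isLittleO_pow_log_id_atTop (n := m)).tendsto_div_nhds_zero.comp tendsto_natCast_atTop_atTop
  filter_upwards [hl3.eventually_le_const (show 0 < 1 / (8 * (1 + c)) by positivity),
    hlm.eventually_le_const one_pos, tendsto_loglog.eventually_ge_atTop 4,
    tendsto_logN.eventually_ge_atTop 8, eventually_ge_atTop 16] with k h1 h1' h2 h3 h4
  have hk16 : (16 : ℝ) ≤ k := by exact_mod_cast h4
  have hk0 : (0 : ℝ) < k := by linarith
  unfold XX
  obtain ⟨L, hL⟩ : ∃ L, L = Real.log (k : ℝ) := ⟨_, rfl⟩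
  obtain ⟨M, hM⟩ : ∃ M, M = Real.log ((k : ℝ) ^ 2) := ⟨_, rfl⟩
  have hML : M = 2 * L := by rw [hM, hL, Real.log_pow]; norm_num
  rw [← hL] at h1 h1' h2 h3 ⊢
  rw [← hM]
  have hL0 : 0 < L := by linarith
  have hlM : Real.log L ≤ Real.log M := Real.log_le_log hL0 (by linarith)
  have hlM0 : 4 ≤ Real.log M := by linarith
  have hllM0 : 0 ≤ Real.log (Real.log M) := Real.log_nonneg (by linarith)
  have hlM1 : Real.log M ≤ M := (Real.log_le_sub_one_of_pos (by linarith)).trans (by linarith)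
  have hllM1 : Real.log (Real.log M) ≤ Real.log M := (Real.log_le_sub_one_of_pos (by linarith)).trans (by linarith)
  refine ⟨fun g n hn1 hn2 => ?_, ?_, ?_, ?_, ?_⟩
  · have hn1' : (k : ℝ) ^ 2 ≤ n := by exact_mod_cast hn1
    have hn2' : (n : ℝ) < (k : ℝ) ^ 2 + 2 * k * g := by exact_mod_cast hn2
    have hg0 : (0 : ℝ) ≤ g := Nat.cast_nonneg g
    have hn0 : (0 : ℝ) < n := by nlinarith
    have hs0 : 0 < √(n : ℝ) := Real.sqrt_pos.2 hn0
    have hs2 : √(n : ℝ) ≤ k + g := by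
      rw [Real.sqrt_le_left (by linarith)]
      nlinarith
    have e1 : M ≤ Real.log n := by rw [hM]; exact Real.log_le_log (by positivity) hn1'
    have e2 : Real.log M ≤ Real.log (Real.log n) := Real.log_le_log (by linarith) e1
    have e3 : Real.log (Real.log M) ≤ Real.log (Real.log (Real.log n)) := Real.log_le_log (by linarith) e2
    unfold lam
    have e4 := mul_le_mul_of_nonneg_left e3 hc.le
    have e5 : 0 ≤ c * Real.log (Real.log M) := mul_nonneg hc.le hllM0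
    apply div_le_div₀ (by linarith) (by linarith) (by linarith) (by linarith)
  · have hG1 : (⌈L⌉₊ : ℝ) ≤ L + 1 := (Nat.ceil_lt_add_one hL0.le).le
    have hG2 : (⌈L⌉₊ : ℝ) ≤ 2 * L := by linarith
    have hG0 : (0 : ℝ) ≤ (⌈L⌉₊ : ℝ) := Nat.cast_nonneg _
    have h5 : L ^ 3 * (8 * (1 + c)) ≤ k := by
      rw [div_le_div_iff₀ hk0 (by positivity)] at h1
      linarith
    have h6 : Real.log M + c * Real.log (Real.log M) ≤ (1 + c) * (2 * L) := by
      nlinarith [mul_le_mul_of_nonneg_left (hllM1.trans (hlM1.trans hML.le)) hc.le]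
    have h7 : (⌈L⌉₊ : ℝ) ^ 2 ≤ (2 * L) ^ 2 := pow_le_pow_left₀ hG0 hG2 2
    calc (⌈L⌉₊ : ℝ) ^ 2 * (Real.log M + c * Real.log (Real.log M)) ≤ (2 * L) ^ 2 * ((1 + c) * (2 * L)) := by
          apply mul_le_mul h7 h6 _ (by positivity)
          nlinarith [mul_nonneg hc.le hllM0]
      _ = L ^ 3 * (8 * (1 + c)) := by ring
      _ ≤ k := h5
  · nlinarith [mul_nonneg hc.le hllM0]
  · have h5 : Real.log L ≤ L := (Real.log_le_sub_one_of_pos hL0).trans (by linarith)
    have h6 : Real.log L ^ m ≤ L ^ m := pow_le_pow_left₀ (by linarith) h5 m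
    have h7 : L ^ m ≤ k := by rwa [div_le_one hk0] at h1'
    exact h6.trans h7
  · have h5 : Real.exp (-(Real.log M + c * Real.log (Real.log M))) = 1 / (M * Real.log M ^ c) := by
      rw [neg_add, Real.exp_add, Real.exp_neg, Real.exp_log (by linarith), Real.exp_neg, mul_comm c,
        Real.exp_mul, Real.exp_log (by linarith)]
      rw [one_div, mul_inv]
    rw [h5]
    have h6 : Real.log L ^ c ≤ Real.log M ^ c := Real.rpow_le_rpow (by linarith) hlM hc.le
    have h7 : 0 < Real.log L ^ c := Real.rpow_pos_of_pos (by linarith) _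
    apply one_div_le_one_div_of_le (by positivity)
    apply mul_le_mul (by linarith) h6 h7.le (by linarith)

lemma pow_bd (m : ℕ) : ∃ M : ℝ, 0 < M ∧ ∀ g : ℕ, (g : ℝ) ^ m ≤ M * 2 ^ g := by
  have h1 := tendsto_pow_const_div_const_pow_of_one_lt m (show (1 : ℝ) < 2 by norm_num)
  obtain ⟨M, hM⟩ := h1.bddAbove_range
  refine ⟨max M 1, lt_max_of_lt_right one_pos, fun g => ?_⟩
  have h2 : (g : ℝ) ^ m / 2 ^ g ≤ M := hM ⟨g, rfl⟩
  have h3 : (0 : ℝ) < 2 ^ g := by positivity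
  rw [div_le_iff₀ h3] at h2
  exact h2.trans (mul_le_mul_of_nonneg_right (le_max_left _ _) h3.le)

/-- the series -/
lemma ser2 (hS : SR3) {s B : ℝ} (hs : 1 < s) : Summable (fun k : ℕ =>
    B / (k * Real.log k * Real.log (Real.log k) ^ s)) := by
  refine Summable.of_norm_bounded_eventually_nat ((hS.1 s hs).mul_left (|B| * (4 * 2 ^ s))) ?_
  filter_upwards [tendsto_loglog.eventually_ge_atTop 1,
    tendsto_logN.eventually_ge_atTop 8, eventually_ge_atTop 16] with k h2 h3 h4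
  have hk16 : (16 : ℝ) ≤ k := by exact_mod_cast h4
  have hk0 : (0 : ℝ) < k := by linarith
  obtain ⟨L, hL⟩ : ∃ L, L = Real.log (k : ℝ) := ⟨_, rfl⟩
  rw [← hL] at h2 h3 ⊢
  have hL0 : 0 < L := by linarith
  have hΛ0 : 0 < Real.log L := by linarith
  have e1 : (k : ℝ) + 3 ≤ 2 * k := by linarith
  have e2 : Real.log ((k : ℝ) + 3) ≤ 2 * L := by
    have h10 : (k : ℝ) + 3 ≤ (k : ℝ) ^ 2 := by nlinarith
    have h11 := Real.log_le_log (by linarith) h10
    rw [Real.log_pow, ← hL] at h11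
    exact_mod_cast h11
  have e20 : L ≤ Real.log ((k : ℝ) + 3) := by rw [hL]; exact Real.log_le_log hk0 (by linarith)
  have e30 : Real.log L ≤ Real.log (Real.log ((k : ℝ) + 3)) := Real.log_le_log hL0 e20
  have e3 : Real.log (Real.log ((k : ℝ) + 3)) ≤ 2 * Real.log L := by
    have h10 := Real.log_le_log (by linarith) e2
    rw [Real.log_mul (by norm_num) hL0.ne'] at h10
    have := Real.log_two_lt_d9
    linarith
  have e4 : Real.log (Real.log ((k : ℝ) + 3)) ^ s ≤ 2 ^ s * Real.log L ^ s := by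
    rw [← Real.mul_rpow (by norm_num) hΛ0.le]
    exact Real.rpow_le_rpow (by linarith) e3 (by linarith)
  have p1 : 0 < Real.log L ^ s := Real.rpow_pos_of_pos hΛ0 _
  have p2 : 0 < Real.log (Real.log ((k : ℝ) + 3)) ^ s := Real.rpow_pos_of_pos (by linarith) _
  have p3 : 0 < Real.log ((k : ℝ) + 3) := by linarith
  rw [norm_div, Real.norm_eq_abs, Real.norm_of_nonneg (by positivity)]
  rw [← mul_div_assoc, mul_one, div_le_div_iff₀ (by positivity) (by positivity)]
  have e5 : ((k : ℝ) + 3) * Real.log ((k : ℝ) + 3) * Real.log (Real.log ((k : ℝ) + 3)) ^ s ≤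
      (2 * k) * (2 * L) * (2 ^ s * Real.log L ^ s) :=
    mul_le_mul (mul_le_mul e1 e2 p3.le (by linarith)) e4 p2.le (by positivity)
  calc |B| * (((k : ℝ) + 3) * Real.log ((k : ℝ) + 3) * Real.log (Real.log ((k : ℝ) + 3)) ^ s) ≤
      |B| * ((2 * k) * (2 * L) * (2 ^ s * Real.log L ^ s)) := mul_le_mul_of_nonneg_left e5 (abs_nonneg _)
    _ = _ := by ring

end Pool.Agent.N273.BR
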