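import Mathlib
import Pool.Agent.N273.BR.Upp2
import Pool.Agent.N300.BR.WN2

set_option autoImplicit false

open MeasureTheory Filter Set
open scoped Topology ENNReal

namespace Pool.Agent.N273.BR

open Pool.Agent.R528.RM Pool.Agent.N417.SM Pool.Agent.N740.HK

lemma uu_eq (c : ℝ) (k : ℕ) : uu c k = (XX c k + 1) / (2 * k) := rfl

lemma one_sub_ge {u : ℝ} (h0 : 0 ≤ u) (h1 : u ≤ 1 / 2) : Real.exp (-(u + 2 * u ^ 2)) ≤ 1 - u := by
  have h2 : 0 < 1 - u := by linarith
  rw [← Real.le_log_iff_exp_le h2]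
  have h3 := Real.one_sub_inv_le_log_of_pos h2
  have h4 : -(u + 2 * u ^ 2) ≤ 1 - (1 - u)⁻¹ := by
    rw [inv_eq_one_div, neg_le_sub_iff_le_add, div_le_iff₀ h2]
    nlinarith [mul_nonneg (sq_nonneg u) (show 0 ≤ 1 - 2 * u by linarith)]
  linarith

theorem dv2_of (hS : SR3) (hN : WN2) : DV2 := by
  intro δ c j hδ hc hsum
  apply hS.2
  obtain ⟨C, hCd⟩ : ∃ C : ℝ, C = (δ / 2) ^ j / j.factorial * (Real.exp (-3) / (2 * 2 ^ (j + 3))) * δ ^ 2 := ⟨_, rfl⟩
  have hC0 : 0 < C := by rw [hCd]; positivity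
  refine Summable.of_norm_bounded_eventually_nat (hsum.mul_left C⁻¹) ?_
  have hl3 : Tendsto (fun k : ℕ => Real.log k ^ 2 / k) atTop (𝓝 0) :=
    (Real.isLittleO_pow_log_id_atTop (n := 2)).tendsto_div_nhds_zero.comp tendsto_natCast_atTop_atTop
  have hcc : 0 < (2 + 2 * |c| + 1) ^ 2 := by positivity
  filter_upwards [hN (min δ (1 / 4)) c (by positivity) (min_le_right _ _),
    hl3.eventually_le_const (show 0 < 1 / (2 * (2 + 2 * |c| + 1) ^ 2) by positivity),
    tendsto_loglog.eventually_ge_atTop 4, tendsto_logN.eventually_ge_atTop 8, eventually_ge_atTop (16 + j)]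
    with k h0 h1 h2 h3 h4
  obtain ⟨_, w1, w2, w3⟩ := h0
  have hk16 : (16 : ℝ) ≤ k := by exact_mod_cast (show 16 ≤ k by omega)
  have hk0 : (0 : ℝ) < k := by linarith
  obtain ⟨L, hL⟩ : ∃ L, L = Real.log (k : ℝ) := ⟨_, rfl⟩
  obtain ⟨x, hx⟩ : ∃ x, x = Real.log L := ⟨_, rfl⟩
  rw [← hL] at h1 h2 h3
  rw [← hx] at h2
  have hL0 : 0 < L := by linarith
  have hx0 : 0 < x := by linarith
  obtain ⟨u, hu⟩ : ∃ u, u = uu c k := ⟨_, rfl⟩
  rw [← hu] at w2 w3
  have hu0 : 0 ≤ u := w1.trans w2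
  obtain ⟨M, hM⟩ : ∃ M, M = Real.log ((k : ℝ) ^ 2) := ⟨_, rfl⟩
  have hML : M = 2 * L := by rw [hM, hL, Real.log_pow]; norm_num
  have hlM : x ≤ Real.log M := by rw [hx]; exact Real.log_le_log hL0 (by linarith)
  have hlM2 : Real.log M ≤ 2 * x := by
    rw [hML, Real.log_mul (by norm_num) hL0.ne', ← hx]
    have := Real.log_two_lt_d9
    linarith
  have hlM0 : 0 < Real.log M := by linarith
  have hM0 : 0 < M := by linarith
  have hlM1 : Real.log M ≤ M := (Real.log_le_sub_one_of_pos hM0).trans (by linarith)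
  have hllM0 : 0 ≤ Real.log (Real.log M) := Real.log_nonneg (by linarith)
  have hllM1 : Real.log (Real.log M) ≤ Real.log M := (Real.log_le_sub_one_of_pos hlM0).trans (by linarith)
  obtain ⟨X, hX⟩ : ∃ X, X = XX c k := ⟨_, rfl⟩
  have hX' : X = Real.log M + c * Real.log (Real.log M) := by rw [hX, hM]; rfl
  have hXu : 2 * k * u = X + 1 := by
    rw [hu, uu_eq, ← hX]
    field_simp
  have hXL : X + 1 ≤ (2 + 2 * |c| + 1) * L := by
    have e1 : c * Real.log (Real.log M) ≤ |c| * (2 * L) := by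
      calc c * Real.log (Real.log M) ≤ |c| * Real.log (Real.log M) :=
            mul_le_mul_of_nonneg_right (le_abs_self c) hllM0
        _ ≤ |c| * (2 * L) := mul_le_mul_of_nonneg_left (by linarith) (abs_nonneg c)
    rw [hX']
    nlinarith
  have hX1 : 0 ≤ X + 1 := by rw [← hXu]; positivity
  have hL2 : L ^ 2 * (2 * (2 + 2 * |c| + 1) ^ 2) ≤ k := by
    rw [div_le_div_iff₀ hk0 (by positivity)] at h1
    linarith
  have hXX : 2 * (X + 1) ^ 2 ≤ k := by
    have e1 : (X + 1) ^ 2 ≤ ((2 + 2 * |c| + 1) * L) ^ 2 := pow_le_pow_left₀ hX1 hXL 2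
    calc 2 * (X + 1) ^ 2 ≤ 2 * ((2 + 2 * |c| + 1) * L) ^ 2 := by linarith
      _ = L ^ 2 * (2 * (2 + 2 * |c| + 1) ^ 2) := by ring
      _ ≤ k := hL2
  have hu2 : 2 * k * (2 * u ^ 2) ≤ 1 := by
    have e1 : 2 * (k : ℝ) * (2 * u ^ 2) = (2 * k * u) ^ 2 / k := by
      field_simp
    rw [e1, hXu, div_le_one hk0]
    linarith [sq_nonneg (X + 1)]
  have huh : u ≤ 1 / 2 := by
    have e1 : u ^ 2 ≤ 1 / 4 := by nlinarith
    nlinarith
  -- the power
  have hpow : Real.exp (-3) / (2 * L * (2 * x) ^ (j + 3)) ≤ (1 - u) ^ (2 * k - j) := by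
    have e1 : (1 - u) ^ (2 * k) ≤ (1 - u) ^ (2 * k - j) :=
      pow_le_pow_of_le_one (by linarith) (by linarith) (Nat.sub_le _ _)
    have e2 : Real.exp (-(u + 2 * u ^ 2)) ^ (2 * k) ≤ (1 - u) ^ (2 * k) :=
      pow_le_pow_left₀ (Real.exp_pos _).le (one_sub_ge hu0 huh) _
    refine le_trans ?_ (e2.trans e1)
    rw [← Real.exp_nat_mul]
    have e3 : Real.exp (-X - 2) ≤ Real.exp (((2 * k : ℕ) : ℝ) * -(u + 2 * u ^ 2)) := by
      apply Real.exp_le_exp.2
      push_cast
      linarith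
    refine le_trans ?_ e3
    have e4 : Real.exp (-X - 2) = Real.exp (-2) / (M * Real.log M ^ c) := by
      have t1 : Real.log M ^ c = Real.exp (Real.log (Real.log M) * c) := Real.rpow_def_of_pos hlM0 c
      rw [eq_div_iff (by positivity), hX', t1]
      calc Real.exp (-(Real.log M + c * Real.log (Real.log M)) - 2) * (M * Real.exp (Real.log (Real.log M) * c)) =
          Real.exp (-(Real.log M + c * Real.log (Real.log M)) - 2) *
            (Real.exp (Real.log M) * Real.exp (Real.log (Real.log M) * c)) := by rw [Real.exp_log hM0]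
        _ = Real.exp (-2) := by
            rw [← Real.exp_add, ← Real.exp_add]
            congr 1
            ring
    rw [e4]
    have e5 : Real.log M ^ c ≤ (2 * x) ^ (j + 3) := by
      calc Real.log M ^ c ≤ Real.log M ^ (((j + 3 : ℕ) : ℝ)) := by
            apply Real.rpow_le_rpow_of_exponent_le (by linarith)
            push_cast
            exact hc
        _ = Real.log M ^ (j + 3) := Real.rpow_natCast _ _
        _ ≤ (2 * x) ^ (j + 3) := pow_le_pow_left₀ hlM0.le hlM2 _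
    have e6 : 0 < Real.log M ^ c := Real.rpow_pos_of_pos hlM0 _
    rw [hML] at e4 ⊢
    rw [← hML]
    apply div_le_div₀ (Real.exp_pos _).le (Real.exp_le_exp.2 (by norm_num)) (by positivity)
    rw [hML]
    rw [hML] at e5
    exact mul_le_mul_of_nonneg_left e5 (by linarith)
  -- the binomial part
  have hbin : (δ / 2) ^ j / j.factorial * x ^ j ≤ ((2 * k).choose j : ℝ) * ll δ k ^ j := by
    have e1 : (((2 * k + 1 - j : ℕ) : ℝ) ^ j) / j.factorial ≤ ((2 * k).choose j : ℝ) := Nat.pow_le_choose j (2 * k)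
    have e2 : (k : ℝ) ≤ ((2 * k + 1 - j : ℕ) : ℝ) := by exact_mod_cast (show k ≤ 2 * k + 1 - j by omega)
    have e3 : (k : ℝ) ^ j / j.factorial ≤ ((2 * k).choose j : ℝ) := by
      refine le_trans ?_ e1
      apply div_le_div_of_nonneg_right _ (by positivity)
      exact pow_le_pow_left₀ hk0.le e2 j
    have e4 : ll δ k = δ / 2 * x / k := by
      unfold ll
      rw [← hL, ← hx]
      field_simp
    have e5 : 0 ≤ ll δ k := by rw [e4]; positivity
    calc (δ / 2) ^ j / j.factorial * x ^ j = (k : ℝ) ^ j / j.factorial * (ll δ k) ^ j := by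
          have t : (δ / 2 * x / k) ^ j = (δ / 2) ^ j * x ^ j / (k : ℝ) ^ j := by rw [div_pow, mul_pow]
          rw [e4, t]
          field_simp
      _ ≤ _ := mul_le_mul_of_nonneg_right e3 (pow_nonneg e5 j)
  have hLL : (δ * LL k) ^ 2 = δ ^ 2 * x ^ 2 / k := by
    unfold LL
    rw [← hL, ← hx, mul_pow, div_pow, Real.sq_sqrt hk0.le]
    ring
  have hwj : (δ / 2) ^ j / j.factorial * x ^ j * (Real.exp (-3) / (2 * L * (2 * x) ^ (j + 3))) ≤ |wj δ c j k| := by
    refine le_trans ?_ (le_abs_self _)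
    unfold wj
    rw [← hu]
    exact mul_le_mul hbin hpow (by positivity) (le_trans (by positivity) hbin)
  have e20 : L ≤ Real.log ((k : ℝ) + 3) := by rw [hL]; exact Real.log_le_log hk0 (by linarith)
  have e30 : x ≤ Real.log (Real.log ((k : ℝ) + 3)) := by rw [hx]; exact Real.log_le_log hL0 e20
  have p3 : 0 < Real.log ((k : ℝ) + 3) := by linarith
  have p4 : 0 < Real.log (Real.log ((k : ℝ) + 3)) := by linarith
  rw [Real.norm_of_nonneg (by positivity)]
  calc 1 / (((k : ℝ) + 3) * Real.log ((k : ℝ) + 3) * Real.log (Real.log ((k : ℝ) + 3))) ≤ 1 / (k * L * x) := by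
        apply one_div_le_one_div_of_le (by positivity)
        exact mul_le_mul (mul_le_mul (by linarith) e20 hL0.le (by linarith)) e30 hx0.le (by positivity)
    _ = C⁻¹ * ((δ / 2) ^ j / j.factorial * x ^ j * (Real.exp (-3) / (2 * L * (2 * x) ^ (j + 3))) *
          (δ ^ 2 * x ^ 2 / k)) := by
        rw [hCd, mul_pow 2 x, pow_add x]
        have p5 : Real.exp (-3 : ℝ) ≠ 0 := (Real.exp_pos _).ne'
        have p6 : (j.factorial : ℝ) ≠ 0 := by positivity
        field_simp
    _ ≤ C⁻¹ * (|wj δ c j k| * (δ * LL k) ^ 2) := by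
        apply mul_le_mul_of_nonneg_left _ (by positivity)
        rw [hLL]
        exact mul_le_mul_of_nonneg_right hwj (by positivity)

end Pool.Agent.N273.BR
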