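import Mathlib
import Pool.Agent.N273.BR.Upp2

set_option autoImplicit false

open MeasureTheory Filter Set
open scoped Topology ENNReal

namespace Pool.Agent.N273.BR

open Pool.Agent.R528.RM Pool.Agent.N417.SM Pool.Agent.N740.HK

/-- **above the critical density, second order** -/
theorem upp2_of (hC : CW2) (hS : SR3) {Ω : Type} {m0 : MeasurableSpace Ω} {μ : Measure Ω} [IsProbabilityMeasure μ]
    {ℱ : Filtration ℕ m0} {A : ℕ → Set Ω} (hA : ∀ n, MeasurableSet[ℱ n] (A n)) (m : ℕ) {c b0 : ℝ}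
    (hc : (m : ℝ) + 3 < c) (hden0 : Den2 μ ℱ A (lam c) (fun n => b0 * LL n)) :
    ∀ᵐ ω ∂μ, ∀ᶠ k : ℕ in atTop, ∀ q, k < q → ω ∈ A k → ω ∈ A q →
      m + 1 ≤ {r | k ^ 2 < r ∧ r < q ^ 2 ∧ ω ∈ A r}.ncard := by
  classical
  have hc0 : 0 < c := by have : (0 : ℝ) ≤ m := Nat.cast_nonneg m; linarith
  obtain ⟨b, hb⟩ : ∃ b, b = max b0 1 := ⟨_, rfl⟩
  have hb1 : 1 ≤ b := by rw [hb]; exact le_max_right _ _
  have hb0 : b0 ≤ b := by rw [hb]; exact le_max_left _ _
  have hden : Den2 μ ℱ A (lam c) (fun n => b * LL n) := by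
    filter_upwards [hden0] with ω hω
    filter_upwards [hω, tendsto_loglog.eventually_ge_atTop 0] with n hn h0
    have hLL : 0 ≤ LL n := div_nonneg h0 (Real.sqrt_nonneg _)
    exact ⟨hn.1, hn.2.trans (mul_le_mul_of_nonneg_right hb0 hLL)⟩
  obtain ⟨M, hM0, hM⟩ := pow_bd m
  set V : ℕ → Set Ω := fun n => {ω | ¬ (lam c n ≤ dens μ ℱ A n ω ∧ dens μ ℱ A n ω ≤ b * LL n)} with hVd
  have hV : ∀ n, MeasurableSet[ℱ n] (V n) := by
    intro n
    have h1 : MeasurableSet {x : ℝ | ¬ (lam c n ≤ x ∧ x ≤ b * LL n)} := by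
      have h2 : {x : ℝ | ¬ (lam c n ≤ x ∧ x ≤ b * LL n)} = (Set.Icc (lam c n) (b * LL n))ᶜ := by
        ext x; simp [Set.mem_Icc]
      rw [h2]
      exact measurableSet_Icc.compl
    exact (dens_meas (μ := μ) n).measurable h1
  have hnV : ∀ n ω, ω ∉ V n → lam c n ≤ dens μ ℱ A n ω ∧ dens μ ℱ A n ω ≤ b * LL n := by
    intro n ω h
    by_contra h2
    exact h h2
  set Gk : ℕ → ℕ := fun k => ⌈Real.log k⌉₊ with hGk
  set Bd : ℕ → Set Ω := fun k =>
    (⋃ g ∈ Finset.Icc 1 (Gk k), (PC A V k g ∩ {ω | cnt A (k ^ 2) (2 * k * g) ω < m + 1}) \ WV V (k ^ 2) (2 * k * g)) ∪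
      (univ ∩ {ω | cnt A (k ^ 2) (2 * k * Gk k) ω < m + 1}) \ WV V (k ^ 2) (2 * k * Gk k) with hBd
  obtain ⟨K, hK⟩ : ∃ K : ℝ, K = ((m : ℝ) + 1) * 2 ^ m * (4 * b) ^ m * Real.exp 1 := ⟨_, rfl⟩
  have hK0 : 0 < K := by rw [hK]; positivity
  set T : ℕ → ℝ := fun k => (K * M * 4 * (16 * b ^ 2)) / (k * Real.log k * Real.log (Real.log k) ^ (c - m - 2)) +
    K * M * (1 / (k : ℝ) ^ 2) with hT
  have hbound : ∀ᶠ k : ℕ in atTop, μ.real (Bd k) ≤ T k := by
    filter_upwards [ana1 (a := 1) (a' := 1 / 2) (b := b) (by norm_num) (by norm_num) (by linarith),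
      ana2 hc0 m, tendsto_loglog.eventually_ge_atTop 4, tendsto_logN.eventually_ge_atTop 8,
      eventually_ge_atTop 16] with k hk hk' h2 h3 h4
    obtain ⟨q1, q2, _, q4⟩ := hk
    obtain ⟨r1, r2, r3, r4, r5⟩ := hk'
    have hk16 : (16 : ℝ) ≤ k := by exact_mod_cast h4
    have hk0 : (0 : ℝ) < k := by linarith
    obtain ⟨L, hL⟩ : ∃ L, L = Real.log (k : ℝ) := ⟨_, rfl⟩
    obtain ⟨Λ, hΛ⟩ : ∃ Λ, Λ = Real.log L := ⟨_, rfl⟩
    obtain ⟨X, hX⟩ : ∃ X, X = XX c k := ⟨_, rfl⟩
    have q1' := q1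
    have q2' := q2
    rw [← hX] at r2 r3 r5
    rw [← hL] at r4 r5 h2 h3
    rw [← hΛ] at r4 r5 h2
    have hL0 : 0 < L := by linarith
    have hGL : L ≤ Gk k := by rw [hL]; exact Nat.le_ceil _
    have hG1 : 1 ≤ Gk k := Nat.one_le_ceil_iff.2 (by rw [← hL]; linarith)
    have hwin : ∀ g : ℕ, 1 ≤ g → g ≤ Gk k → ∀ C : Set Ω, MeasurableSet[ℱ (k ^ 2)] C →
        μ.real ((C ∩ {ω | cnt A (k ^ 2) (2 * k * g) ω < m + 1}) \ WV V (k ^ 2) (2 * k * g)) ≤
          K * M * Λ ^ m * (2 * Real.exp (-X)) ^ g * μ.real C := by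
      intro g hg0 hg C hCm
      have hg0' : (1 : ℝ) ≤ g := by exact_mod_cast hg0
      have hgG : (g : ℝ) ≤ Gk k := by exact_mod_cast hg
      have hg2 : (g : ℝ) ^ 2 * X ≤ k := by
        have h5 : (g : ℝ) ^ 2 ≤ (Gk k : ℝ) ^ 2 := pow_le_pow_left₀ (by linarith) hgG 2
        exact (mul_le_mul_of_nonneg_right h5 (by linarith)).trans r2
      have hgX : X ≤ k := by
        have hg3 : (1 : ℝ) ≤ (g : ℝ) ^ 2 := by nlinarith
        have hg4 : X ≤ (g : ℝ) ^ 2 * X := le_mul_of_one_le_left (by linarith) hg3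
        exact hg4.trans hg2
      have hl0 : 0 ≤ X / (2 * ((k : ℝ) + g)) := by positivity
      have hl1 : X / (2 * ((k : ℝ) + g)) ≤ 1 / 2 := by
        rw [div_le_div_iff₀ (by positivity) (by norm_num)]
        linarith
      have hJu : ((2 * k * g : ℕ) : ℝ) * (2 * b * (Λ / k)) = 4 * b * (g * Λ) := by
        push_cast
        field_simp
        ring
      have h5 := hC (μ := μ) hA hV (l := X / (2 * ((k : ℝ) + g))) (u := 2 * b * (Λ / k)) hl0 hl1 (by positivity)
        (k ^ 2) (2 * k * g)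
        (fun n hn1 hn2 ω hω => by
          have h6 := hnV n ω hω
          have h7 := q1 n hn1 (lt_of_lt_of_le hn2 (Nat.add_le_add_left (Nat.mul_le_mul_left _ hg) _))
          have h8 := r1 g n hn1 hn2
          rw [← hX] at h8
          rw [← hL, ← hΛ] at h7
          exact ⟨h8.trans h6.1, h6.2.trans h7.2⟩) m (by
          rw [hJu]
          have t1 : 1 ≤ (g : ℝ) * Λ := by nlinarith
          nlinarith) hCm
      refine h5.trans ?_
      apply mul_le_mul_of_nonneg_right _ measureReal_nonneg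
      rw [hJu]
      have h6 : Real.exp (-(((2 * k * g : ℕ) : ℝ) * (X / (2 * ((k : ℝ) + g))))) ≤ Real.exp 1 * Real.exp (-X) ^ g := by
        rw [← Real.exp_nat_mul, ← Real.exp_add]
        apply Real.exp_le_exp.2
        have h7 : ((2 * k * g : ℕ) : ℝ) * (X / (2 * ((k : ℝ) + g))) = g * X - (g : ℝ) ^ 2 * X / (k + g) := by
          push_cast
          field_simp
          ring
        have h8 : (g : ℝ) ^ 2 * X / (k + g) ≤ 1 := by
          rw [div_le_one (by positivity)]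
          linarith
        rw [h7]
        linarith
      have h9 : (4 * b * ((g : ℝ) * Λ)) ^ m ≤ (4 * b) ^ m * (M * 2 ^ g) * Λ ^ m := by
        have t : (4 * b * ((g : ℝ) * Λ)) ^ m = (4 * b) ^ m * (g : ℝ) ^ m * Λ ^ m := by
          rw [mul_pow (4 * b), mul_pow (g : ℝ), mul_assoc]
        rw [t]
        apply mul_le_mul_of_nonneg_right _ (pow_nonneg (by linarith) m)
        exact mul_le_mul_of_nonneg_left (hM g) (pow_nonneg (by linarith) m)
      calc ((m : ℝ) + 1) * 2 ^ m * (4 * b * ((g : ℝ) * Λ)) ^ m *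
            Real.exp (-(((2 * k * g : ℕ) : ℝ) * (X / (2 * ((k : ℝ) + g))))) ≤
          ((m : ℝ) + 1) * 2 ^ m * ((4 * b) ^ m * (M * 2 ^ g) * Λ ^ m) * (Real.exp 1 * Real.exp (-X) ^ g) := by
            apply mul_le_mul _ h6 (Real.exp_pos _).le (by positivity)
            exact mul_le_mul_of_nonneg_left h9 (by positivity)
        _ = K * M * Λ ^ m * (2 * Real.exp (-X)) ^ g := by
            rw [hK, mul_pow 2]
            ring
    have hpair : ∀ g ∈ Finset.Icc 1 (Gk k), μ.real (PC A V k g) ≤ 16 * b ^ 2 * Λ ^ 2 / k := by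
      intro g hg
      rw [Finset.mem_Icc] at hg
      rw [← hL, ← hΛ] at q2
      have h5 := PC_le (μ := μ) hA hV (k := k) (g := g) (by omega) hg.1 (u := 4 * b * (Λ / √(k : ℝ))) (by positivity)
        (fun ω hω => (hnV _ ω hω).2.trans (q2 _ (by omega) (by
          have h6 : 1 ≤ ⌈Real.log (k : ℝ)⌉₊ := hg.1.trans hg.2
          rw [← hL] at h6
          omega)))
        (fun ω hω => (hnV _ ω hω).2.trans (q2 _ (by omega) (by
          have h6 : g ≤ ⌈Real.log (k : ℝ)⌉₊ := hg.2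
          rw [← hL] at h6
          omega)))
      refine h5.trans (le_of_eq ?_)
      have h6 : √(k : ℝ) * √(k : ℝ) = k := Real.mul_self_sqrt hk0.le
      have h7 : √(k : ℝ) ≠ 0 := (Real.sqrt_pos.2 hk0).ne'
      calc 4 * b * (Λ / √(k : ℝ)) * (4 * b * (Λ / √(k : ℝ))) = 16 * b ^ 2 * Λ ^ 2 / (√(k : ℝ) * √(k : ℝ)) := by
            field_simp
            ring
        _ = _ := by rw [h6]
    have hx0 : 0 ≤ 2 * Real.exp (-X) := by positivity
    have hx2 : Real.exp (-X) ≤ Real.exp (-4) := Real.exp_le_exp.2 (by linarith)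
    have hx3 : Real.exp (-4 : ℝ) ≤ 1 / 5 := by
      rw [Real.exp_neg, inv_eq_one_div]
      apply one_div_le_one_div_of_le (by norm_num)
      have := Real.add_one_le_exp (4 : ℝ)
      linarith
    have hx1 : 2 * Real.exp (-X) ≤ 1 / 2 := by linarith
    have hΛ0 : 0 < Λ := by linarith
    have e1 : μ.real (⋃ g ∈ Finset.Icc 1 (Gk k),
        (PC A V k g ∩ {ω | cnt A (k ^ 2) (2 * k * g) ω < m + 1}) \ WV V (k ^ 2) (2 * k * g)) ≤
        (K * M * 4 * (16 * b ^ 2)) / (k * L * Λ ^ (c - m - 2)) := by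
      refine (measureReal_biUnion_finset_le _ _).trans ?_
      calc ∑ g ∈ Finset.Icc 1 (Gk k), μ.real ((PC A V k g ∩ {ω | cnt A (k ^ 2) (2 * k * g) ω < m + 1}) \
            WV V (k ^ 2) (2 * k * g)) ≤
          ∑ g ∈ Finset.Icc 1 (Gk k), K * M * Λ ^ m * (16 * b ^ 2 * Λ ^ 2 / k) * (2 * Real.exp (-X)) ^ g := by
            refine Finset.sum_le_sum fun g hg => ?_
            have hg' := Finset.mem_Icc.1 hg
            refine (hwin g hg'.1 hg'.2 _ (ℱ.mono (by have : k + Gk k ≤ k ^ 2 := q4; omega) _ (PC_meas hA hV k g))).trans ?_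
            have h5 := hpair g hg
            have h6 : 0 ≤ K * M * Λ ^ m * (2 * Real.exp (-X)) ^ g := by positivity
            calc K * M * Λ ^ m * (2 * Real.exp (-X)) ^ g * μ.real (PC A V k g) ≤
                K * M * Λ ^ m * (2 * Real.exp (-X)) ^ g * (16 * b ^ 2 * Λ ^ 2 / k) :=
                  mul_le_mul_of_nonneg_left h5 h6
              _ = _ := by ring
        _ = K * M * Λ ^ m * (16 * b ^ 2 * Λ ^ 2 / k) * ∑ g ∈ Finset.Icc 1 (Gk k), (2 * Real.exp (-X)) ^ g := by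
            rw [Finset.mul_sum]
        _ ≤ K * M * Λ ^ m * (16 * b ^ 2 * Λ ^ 2 / k) * (2 * (2 * Real.exp (-X))) :=
            mul_le_mul_of_nonneg_left (geo hx0 hx1 _) (by positivity)
        _ = K * M * 4 * (16 * b ^ 2) / k * (Λ ^ (m + 2) * Real.exp (-X)) := by
            rw [pow_add]
            ring
        _ ≤ K * M * 4 * (16 * b ^ 2) / k * (Λ ^ (m + 2) * (1 / (L * Λ ^ c))) := by
            apply mul_le_mul_of_nonneg_left _ (by positivity)
            exact mul_le_mul_of_nonneg_left r5 (by positivity)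
        _ = (K * M * 4 * (16 * b ^ 2)) / (k * L * Λ ^ (c - m - 2)) := by
            have h7 : Λ ^ c = Λ ^ (c - m - 2) * Λ ^ (m + 2) := by
              rw [← Real.rpow_natCast, ← Real.rpow_add hΛ0]
              congr 1
              push_cast
              ring
            have h8 : Λ ^ (c - m - 2) ≠ 0 := (Real.rpow_pos_of_pos hΛ0 _).ne'
            rw [h7]
            field_simp
    have e2 : μ.real ((univ ∩ {ω | cnt A (k ^ 2) (2 * k * Gk k) ω < m + 1}) \ WV V (k ^ 2) (2 * k * Gk k)) ≤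
        K * M * (1 / (k : ℝ) ^ 2) := by
      refine (hwin (Gk k) hG1 le_rfl univ MeasurableSet.univ).trans ?_
      have h5 : μ.real (univ : Set Ω) ≤ 1 := measureReal_le_one
      have h6 : (2 * Real.exp (-X)) ^ Gk k ≤ 1 / (k : ℝ) ^ 3 := by
        have h7 : 2 * Real.exp (-X) ≤ Real.exp (-3) := by
          have h8 : Real.exp (-X) ≤ Real.exp (-3) * Real.exp (-1) := by
            rw [← Real.exp_add]
            apply Real.exp_le_exp.2
            linarith
          have h9 : Real.exp (-1 : ℝ) ≤ 1 / 2 := by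
            rw [Real.exp_neg, inv_eq_one_div]
            apply one_div_le_one_div_of_le (by norm_num)
            have := Real.exp_one_gt_d9
            linarith
          nlinarith [Real.exp_pos (-3 : ℝ)]
        have h10 := pow_le_pow_left₀ hx0 h7 (Gk k)
        refine h10.trans ?_
        rw [← Real.exp_nat_mul]
        have h11 : Real.exp ((Gk k : ℝ) * -3) ≤ Real.exp (-(3 * L)) := by
          apply Real.exp_le_exp.2
          linarith
        refine h11.trans (le_of_eq ?_)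
        have h12 : Real.exp (3 * L) = (k : ℝ) ^ 3 := by
          rw [show 3 * L = ((3 : ℕ) : ℝ) * L by norm_num, Real.exp_nat_mul, hL, Real.exp_log hk0]
        rw [Real.exp_neg, h12, one_div]
      have h7 : 0 ≤ K * M := by positivity
      calc K * M * Λ ^ m * (2 * Real.exp (-X)) ^ Gk k * μ.real (univ : Set Ω) ≤
          K * M * Λ ^ m * (2 * Real.exp (-X)) ^ Gk k * 1 := mul_le_mul_of_nonneg_left h5 (by positivity)
        _ = K * M * (Λ ^ m * (2 * Real.exp (-X)) ^ Gk k) := by ring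
        _ ≤ K * M * (k * (1 / (k : ℝ) ^ 3)) := by
            apply mul_le_mul_of_nonneg_left _ h7
            exact mul_le_mul r4 h6 (by positivity) hk0.le
        _ = _ := by
            field_simp
    refine (measureReal_union_le _ _).trans ?_
    simp only [hT]
    rw [← hL, ← hΛ]
    exact add_le_add e1 e2
  have hTs : Summable T := by
    refine (ser2 hS (by linarith)).add ?_
    exact (Real.summable_one_div_nat_pow.2 (by norm_num)).mul_left _
  have hsum : Summable (fun k => μ.real (Bd k)) := by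
    refine Summable.of_norm_bounded_eventually_nat hTs ?_
    filter_upwards [hbound] with k hk
    rwa [Real.norm_of_nonneg measureReal_nonneg]
  have h3 : ∑' k, μ (Bd k) ≠ ∞ := by
    have h4 : ∀ k, μ (Bd k) = ENNReal.ofReal (μ.real (Bd k)) := fun k => by
      rw [ofReal_measureReal (measure_ne_top _ _)]
    simp_rw [h4]
    exact hsum.tsum_ofReal_ne_top
  filter_upwards [ae_eventually_notMem h3, hden] with ω h4 h5
  obtain ⟨n₀, hn₀⟩ := eventually_atTop.1 h5
  have hok : ∀ n, n₀ ≤ n → ω ∉ V n := by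
    intro n hn h
    exact h (hn₀ n hn)
  filter_upwards [h4, eventually_ge_atTop (n₀ + 16)] with k hk1 hk2 q hq hωk hωq
  have hk16 : (16 : ℝ) ≤ k := by exact_mod_cast (show 16 ≤ k by omega)
  have hlog : 1 < Real.log k := by
    have h6 : Real.exp 1 < k := by have := Real.exp_one_lt_d9; linarith
    exact (Real.lt_log_iff_exp_lt (by linarith)).2 h6
  have hG1 : 1 ≤ Gk k := Nat.one_le_ceil_iff.2 (by linarith)
  have hkk : n₀ ≤ k ^ 2 := by nlinarith
  have hWV : ∀ j, ω ∉ WV V (k ^ 2) j := by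
    rintro j ⟨n, hn1, _, hn3⟩
    exact hok n (hkk.trans hn1) hn3
  obtain ⟨g, hg⟩ : ∃ g, g = min (q - k) (Gk k) := ⟨_, rfl⟩
  have hg1 : 1 ≤ g := by rw [hg]; exact le_min (by omega) hG1
  have hgq : g ≤ q - k := by rw [hg]; exact min_le_left _ _
  have hcnt : m + 1 ≤ cnt A (k ^ 2) (2 * k * g) ω := by
    by_contra hlt
    push Not at hlt
    apply hk1
    rcases Nat.lt_or_ge (Gk k) (q - k) with hc | hc
    · right
      have : g = Gk k := by rw [hg]; exact min_eq_right hc.le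
      rw [this] at hlt
      exact ⟨⟨mem_univ _, hlt⟩, hWV _⟩
    · left
      have hgq' : g = q - k := by rw [hg]; exact min_eq_left hc
      rw [mem_iUnion₂]
      refine ⟨g, Finset.mem_Icc.2 ⟨hg1, by rw [hgq']; exact hc⟩, ⟨⟨⟨⟨hωk, hok _ (by omega)⟩, ⟨?_, hok _ (by omega)⟩⟩, hlt⟩, hWV _⟩⟩
      have : k + g = q := by omega
      rw [this]
      exact hωq
  refine hcnt.trans ((cnt_card _ _ _).trans (Set.ncard_le_ncard ?_ ?_))
  · rintro r ⟨r1, r2, r3⟩
    refine ⟨r1, ?_, r3⟩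
    have h6 : k + g ≤ q := by omega
    have h7 : (k + g) ^ 2 ≤ q ^ 2 := Nat.pow_le_pow_left h6 2
    have h8 : (k + g) ^ 2 = k ^ 2 + 2 * k * g + g ^ 2 := by ring
    have h9 : 1 ≤ g ^ 2 := Nat.one_le_pow _ _ hg1
    omega
  · exact (Set.finite_Iio (q ^ 2)).subset fun r h => h.2.1

end Pool.Agent.N273.BR
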