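import Mathlib
import Pool.Agent.N273.BR.Upp3
import Pool.Agent.N478.BR.LOW

set_option autoImplicit false

open MeasureTheory Filter Set
open scoped Topology ENNReal

namespace Pool.Agent.N273.BR

open Pool.Agent.R528.RM Pool.Agent.N417.SM Pool.Agent.N740.HK

/-- number of members between the squares of successive members -/
noncomputable def NN (S : Set ℕ) (n : ℕ) : ℕ :=
  {q : ℕ | q ∈ S ∧ Nat.nth (· ∈ S) n ^ 2 < q ∧ q < Nat.nth (· ∈ S) (n + 1) ^ 2}.ncard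

lemma glue_up {S : Set ℕ} (hS : S.Infinite) {m : ℕ}
    (h : ∀ᶠ k : ℕ in atTop, ∀ q, k < q → k ∈ S → q ∈ S → m ≤ {r | k ^ 2 < r ∧ r < q ^ 2 ∧ r ∈ S}.ncard) :
    ∀ᶠ n in atTop, m ≤ NN S n := by
  have hmono := Nat.nth_strictMono (p := (· ∈ S)) hS
  filter_upwards [hmono.tendsto_atTop.eventually h] with n hn
  have h1 := hn (Nat.nth (· ∈ S) (n + 1)) (hmono (Nat.lt_succ_self n)) (Nat.nth_mem_of_infinite hS n)
    (Nat.nth_mem_of_infinite hS (n + 1))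
  unfold NN
  convert h1 using 2
  ext r
  simp only [mem_ofPred_eq]
  tauto

lemma glue_low {S : Set ℕ} {j : ℕ}
    (h : ∃ᶠ k : ℕ in atTop, k ∈ S ∧ k + 1 ∈ S ∧ {r | k ^ 2 < r ∧ r < (k + 1) ^ 2 ∧ r ∈ S}.ncard = j) :
    S.Infinite ∧ ∃ᶠ n in atTop, Nat.nth (· ∈ S) (n + 1) = Nat.nth (· ∈ S) n + 1 ∧ NN S n = j := by
  classical
  have hS : S.Infinite := Nat.frequently_atTop_iff_infinite.1 (h.mono fun k hk => hk.1)
  refine ⟨hS, ?_⟩
  rw [frequently_atTop]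
  intro n0
  obtain ⟨k, hk0, hk1, hk2, hk3⟩ := (frequently_atTop.1 h) (Nat.nth (· ∈ S) n0)
  have e1 : Nat.nth (· ∈ S) (Nat.count (· ∈ S) k) = k := Nat.nth_count (p := (· ∈ S)) hk1
  have e2 : Nat.nth (· ∈ S) (Nat.count (· ∈ S) k + 1) = k + 1 := by
    have h2 : Nat.count (· ∈ S) (k + 1) = Nat.count (· ∈ S) k + 1 := by
      rw [Nat.count_succ, if_pos hk1]
    rw [← h2]
    exact Nat.nth_count (p := (· ∈ S)) hk2
  refine ⟨Nat.count (· ∈ S) k, ?_, ?_, ?_⟩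
  · have h3 : Nat.count (· ∈ S) (Nat.nth (· ∈ S) n0) = n0 := Nat.count_nth_of_infinite (p := (· ∈ S)) hS n0
    rw [← h3]
    exact Nat.count_monotone (· ∈ S) hk0
  · rw [e1, e2]
  · unfold NN
    rw [e1, e2, ← hk3]
    congr 1
    ext r
    simp only [mem_ofPred_eq]
    tauto

section

variable {Ω : Type} {m0 : MeasurableSpace Ω} {μ : Measure Ω} [IsProbabilityMeasure μ]
  {ℱ : Filtration ℕ m0} {A : ℕ → Set Ω}

lemma cnt_eq (t j : ℕ) (ω : Ω) : cnt A t j ω = {r | t < r ∧ r ≤ t + j ∧ ω ∈ A r}.ncard := by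
  classical
  unfold cnt
  rw [← Finset.card_filter]
  have h1 : ((Finset.range j).filter (fun r => ω ∈ A (t + 1 + r))).card =
      (((Finset.range j).filter (fun r => ω ∈ A (t + 1 + r))).image (fun r => t + 1 + r)).card := by
    rw [Finset.card_image_of_injective]
    intro x y h
    simpa using h
  rw [h1, ← Set.ncard_coe_finset]
  congr 1
  ext r
  rw [Finset.mem_coe, Finset.mem_image]
  constructor
  · rintro ⟨i, hi, rfl⟩
    rw [Finset.mem_filter, Finset.mem_range] at hi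
    exact ⟨by omega, by omega, hi.2⟩
  · rintro ⟨h2, h3, h4⟩
    refine ⟨r - (t + 1), ?_, by omega⟩
    rw [Finset.mem_filter, Finset.mem_range]
    refine ⟨by omega, ?_⟩
    rwa [show t + 1 + (r - (t + 1)) = r by omega]

lemma inf_of (hA : ∀ n, MeasurableSet[ℱ n] (A n)) {c : ℝ} (hc : 0 ≤ c)
    (h : ∀ᵐ ω ∂μ, ∀ᶠ n : ℕ in atTop, lam c n ≤ dens μ ℱ A n ω) : ∀ᵐ ω ∂μ, {k | ω ∈ A k}.Infinite := by
  filter_upwards [ae_mem_limsup_atTop_iff μ hA, h] with ω h1 h2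
  have h3 : Tendsto (fun n => ∑ k ∈ Finset.range n, (μ[(A (k + 1)).indicator (1 : Ω → ℝ) | ℱ k]) ω) atTop atTop := by
    refine Pool.Agent.N478.BR.div_mono (f := fun k : ℕ => 1 / ((k : ℝ) + 1)) ?_
      Real.tendsto_sum_range_one_div_nat_succ_atTop
    filter_upwards [h2, tendsto_loglog.eventually_ge_atTop 1, eventually_ge_atTop 1] with k h3 h4 h5
    have hk1 : (1 : ℝ) ≤ k := by exact_mod_cast h5
    have h6 : 0 ≤ Real.log (Real.log (Real.log k)) := Real.log_nonneg h4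
    have h7 : 0 < √(k : ℝ) := Real.sqrt_pos.2 (by linarith)
    have h8 : 2 * √(k : ℝ) ≤ k + 1 := by
      have h9 := Real.sq_sqrt (show (0 : ℝ) ≤ k by linarith)
      nlinarith [sq_nonneg (√(k : ℝ) - 1)]
    have h10 : 1 / ((k : ℝ) + 1) ≤ lam c k := by
      unfold lam
      apply div_le_div₀ (by nlinarith [mul_nonneg hc h6]) _ (by positivity) h8
      nlinarith [mul_nonneg hc h6]
    exact h10.trans h3
  have h4 := h1.2 h3
  rw [mem_limsup_iff_frequently_mem] at h4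
  exact Nat.frequently_atTop_iff_infinite.1 h4

/-- above -/
theorem fin_up (hC : CW2) (hS : SR3) (hA : ∀ n, MeasurableSet[ℱ n] (A n)) {m : ℕ} (hm : 1 ≤ m) {c b : ℝ}
    (hc : (m : ℝ) + 2 < c) (hden : Den2 μ ℱ A (lam c) (fun n => b * LL n)) :
    ∀ᵐ ω ∂μ, {k | ω ∈ A k}.Infinite ∧ ∀ᶠ n in atTop, m ≤ NN {k | ω ∈ A k} n := by
  obtain ⟨m, rfl⟩ : ∃ m', m = m' + 1 := ⟨m - 1, by omega⟩
  push_cast at hc
  have h1 := upp2_of hC hS hA m (by linarith) hden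
  have h2 := inf_of (μ := μ) hA (c := c) (by have : (0 : ℝ) ≤ m := Nat.cast_nonneg m; linarith) (by
    filter_upwards [hden] with ω hω
    filter_upwards [hω] with n hn
    exact hn.1)
  filter_upwards [h1, h2] with ω h3 h4
  exact ⟨h4, glue_up h4 h3⟩

/-- below -/
theorem fin_low (hL : LW2) (hA : ∀ n, MeasurableSet[ℱ n] (A n)) {m : ℕ} (hm : 1 ≤ m) {c δ : ℝ} (hδ : 0 < δ)
    (hc : c ≤ (m : ℝ) + 2) (hden : Den2 μ ℱ A (fun n => δ * LL n) (lam c)) :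
    ∀ᵐ ω ∂μ, {k | ω ∈ A k}.Infinite ∧ ∃ᶠ n in atTop,
      Nat.nth (· ∈ {k | ω ∈ A k}) (n + 1) = Nat.nth (· ∈ {k | ω ∈ A k}) n + 1 ∧ NN {k | ω ∈ A k} n = m - 1 := by
  obtain ⟨m, rfl⟩ : ∃ m', m = m' + 1 := ⟨m - 1, by omega⟩
  push_cast at hc
  have h1 := hL hA hδ m (by linarith) hden
  filter_upwards [h1] with ω h2
  refine glue_low (S := {k | ω ∈ A k}) (j := m + 1 - 1) ?_
  refine h2.mono fun k hk => ⟨hk.1, hk.2.1, ?_⟩
  rw [Nat.add_sub_cancel, ← hk.2.2, cnt_eq]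
  congr 1
  ext r
  simp only [mem_ofPred_eq]
  have h8 : (k + 1) ^ 2 = k ^ 2 + 2 * k + 1 := by ring
  constructor
  · rintro ⟨a1, a2, a3⟩
    exact ⟨a1, by omega, a3⟩
  · rintro ⟨a1, a2, a3⟩
    exact ⟨a1, by omega, a3⟩

end

end Pool.Agent.N273.BR
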