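import Mathlib
import Pool.Agent.N273.BR.Fin
import Pool.Agent.N740.HK.Sch

set_option autoImplicit false

open MeasureTheory Filter Set ProbabilityTheory
open scoped Topology ENNReal

namespace Pool.Agent.N273.BR

open Pool.Agent.R528.RM Pool.Agent.N417.SM Pool.Agent.N740.HK

lemma lll {K : ℝ} (hK : 0 < K) : ∀ᶠ n : ℕ in atTop,
    K * Real.log (Real.log (Real.log n)) ≤ Real.log (Real.log n) ∧ 1 ≤ Real.log (Real.log n) ∧
      0 ≤ Real.log (Real.log (Real.log n)) := by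
  have h1 : Tendsto (fun x : ℝ => Real.log x / x) atTop (𝓝 0) :=
    Real.isLittleO_log_id_atTop.tendsto_div_nhds_zero
  have h2 := (h1.comp tendsto_loglog).eventually_le_const (show 0 < 1 / K by positivity)
  filter_upwards [h2, tendsto_loglog.eventually_ge_atTop 1] with n h3 h4
  simp only [Function.comp] at h3
  refine ⟨?_, h4, Real.log_nonneg h4⟩
  rw [div_le_div_iff₀ (by linarith) hK] at h3
  linarith

lemma lam_eq (c : ℝ) (n : ℕ) : lam c n =
    (Real.log (Real.log n) + c * Real.log (Real.log (Real.log n))) / 2 / √(n : ℝ) := by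
  unfold lam
  rw [div_div]

lemma lam_le (c : ℝ) {b : ℝ} (hb : 1 / 2 < b) : ∀ᶠ n : ℕ in atTop, lam c n ≤ b * LL n := by
  have hb' : 0 < 2 * b - 1 := by linarith
  have hc' : 0 < |c| + 1 := by have := abs_nonneg c; linarith
  filter_upwards [lll (K := (|c| + 1) / (2 * b - 1)) (div_pos hc' hb')] with n hn
  obtain ⟨h1, h2, h3⟩ := hn
  rw [div_mul_eq_mul_div, div_le_iff₀ hb'] at h1
  rw [lam_eq]
  unfold LL
  rw [← mul_div_assoc]
  apply div_le_div_of_nonneg_right _ (Real.sqrt_nonneg _)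
  have h4 : c * Real.log (Real.log (Real.log n)) ≤ (|c| + 1) * Real.log (Real.log (Real.log n)) :=
    mul_le_mul_of_nonneg_right (by linarith [le_abs_self c]) h3
  linarith

lemma lam_ge (c : ℝ) {b : ℝ} (hb : b < 1 / 2) : ∀ᶠ n : ℕ in atTop, b * LL n ≤ lam c n := by
  have hb' : 0 < 1 - 2 * b := by linarith
  have hc' : 0 < |c| + 1 := by have := abs_nonneg c; linarith
  filter_upwards [lll (K := (|c| + 1) / (1 - 2 * b)) (div_pos hc' hb')] with n hn
  obtain ⟨h1, h2, h3⟩ := hn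
  rw [div_mul_eq_mul_div, div_le_iff₀ hb'] at h1
  rw [lam_eq]
  unfold LL
  rw [← mul_div_assoc]
  apply div_le_div_of_nonneg_right _ (Real.sqrt_nonneg _)
  have h4 : -((|c| + 1) * Real.log (Real.log (Real.log n))) ≤ c * Real.log (Real.log (Real.log n)) := by
    have h5 : -(|c| + 1) ≤ c := by linarith [neg_abs_le c]
    have h6 := mul_le_mul_of_nonneg_right h5 h3
    linarith
  linarith

section

variable {Ω : Type} {m0 : MeasurableSpace Ω} {μ : Measure Ω} [IsProbabilityMeasure μ]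
  {A : ℕ → Set Ω}

/-- independent events -/
theorem indep_iff (hC : CW2) (hS : SR3) (hL : LW2) (hA : ∀ n, MeasurableSet (A n)) (hi : iIndepSet A μ)
    {m : ℕ} (hm : 1 ≤ m) {c : ℝ} (hp : ∀ᶠ n : ℕ in atTop, μ (A (n + 1)) = ENNReal.ofReal (lam c n)) :
    (∀ᵐ ω ∂μ, ∀ᶠ n in atTop, m ≤ NN {k | ω ∈ A k} n) ↔ (m : ℝ) + 2 < c := by
  have hd : ∀ᵐ ω ∂μ, ∀ᶠ n : ℕ in atTop, dens μ (gen hA) A n ω = lam c n := by
    have h1 : ∀ᵐ ω ∂μ, ∀ n, dens μ (gen hA) A n ω = (μ (A (n + 1))).toReal :=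
      ae_all_iff.2 fun n => dens_gen hA hi n
    filter_upwards [h1] with ω h2
    filter_upwards [hp, lam_ge c (show (0 : ℝ) < 1 / 2 by norm_num)] with n h3 h4
    rw [h2 n, h3, ENNReal.toReal_ofReal (by linarith)]
  constructor
  · intro h
    by_contra hc
    have hc' : c ≤ (m : ℝ) + 2 := not_lt.1 hc
    have h1 := fin_low (μ := μ) (ℱ := gen hA) hL (fun n => gen_meas hA n) hm (δ := 1 / 4) (by norm_num) hc' (by
      filter_upwards [hd] with ω h2
      filter_upwards [h2, lam_ge c (show (1 / 4 : ℝ) < 1 / 2 by norm_num)] with n h3 h4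
      rw [h3]
      exact ⟨h4, le_rfl⟩)
    obtain ⟨ω, h2, h3⟩ := (h.and h1).exists
    obtain ⟨n, h4, h5⟩ := (h3.2.and_eventually h2).exists
    have := h4.2
    omega
  · intro hc
    have h1 := fin_up (μ := μ) (ℱ := gen hA) hC hS (fun n => gen_meas hA n) hm (b := 1) hc (by
      filter_upwards [hd] with ω h2
      filter_upwards [h2, lam_le c (show (1 / 2 : ℝ) < 1 by norm_num)] with n h3 h4
      rw [h3]
      exact ⟨le_rfl, h4⟩)
    filter_upwards [h1] with ω h2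
    exact h2.2

variable {ℱ : Filtration ℕ m0}

/-- the leading order -/
theorem first (hC : CW2) (hS : SR3) (hL : LW2) (hA : ∀ n, MeasurableSet[ℱ n] (A n)) {β : ℝ}
    (hden : ∀ᵐ ω ∂μ, Tendsto (fun n : ℕ => dens μ ℱ A n ω * √(n : ℝ) / Real.log (Real.log n)) atTop (𝓝 β)) :
    (1 / 2 < β → ∀ᵐ ω ∂μ, {k | ω ∈ A k}.Infinite ∧ ∀ m : ℕ, ∀ᶠ n in atTop, m ≤ NN {k | ω ∈ A k} n) ∧
    (0 < β → β < 1 / 2 → ∀ᵐ ω ∂μ, {k | ω ∈ A k}.Infinite ∧ ∀ j : ℕ, ∃ᶠ n in atTop,
      Nat.nth (· ∈ {k | ω ∈ A k}) (n + 1) = Nat.nth (· ∈ {k | ω ∈ A k}) n + 1 ∧ NN {k | ω ∈ A k} n = j) := by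
  have key : ∀ a b : ℝ, a < β → β < b → ∀ᵐ ω ∂μ, ∀ᶠ n : ℕ in atTop, a * LL n ≤ dens μ ℱ A n ω ∧
      dens μ ℱ A n ω ≤ b * LL n := by
    intro a b ha hb
    filter_upwards [hden] with ω hω
    filter_upwards [hω.eventually_const_le ha, hω.eventually_le_const hb, tendsto_loglog.eventually_ge_atTop 1,
      eventually_ge_atTop 1] with n h1 h2 h3 h4
    have h5 : 0 < √(n : ℝ) := Real.sqrt_pos.2 (by exact_mod_cast h4)
    rw [le_div_iff₀ (by linarith)] at h1
    rw [div_le_iff₀ (by linarith)] at h2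
    unfold LL
    rw [← mul_div_assoc, ← mul_div_assoc, div_le_iff₀ h5, le_div_iff₀ h5]
    exact ⟨h1, h2⟩
  constructor
  · intro hβ
    have h1 : ∀ m : ℕ, ∀ᵐ ω ∂μ, {k | ω ∈ A k}.Infinite ∧ ∀ᶠ n in atTop, m + 1 ≤ NN {k | ω ∈ A k} n := by
      intro m
      refine fin_up (μ := μ) (ℱ := ℱ) hC hS hA (m := m + 1) (by omega) (c := m + 4) (b := β + 1) (by push_cast; linarith) ?_
      filter_upwards [key ((β + 1 / 2) / 2) (β + 1) (by linarith) (by linarith)] with ω h2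
      filter_upwards [h2, lam_le ((m : ℝ) + 4) (show 1 / 2 < (β + 1 / 2) / 2 by linarith)] with n h3 h4
      exact ⟨h4.trans h3.1, h3.2⟩
    filter_upwards [ae_all_iff.2 h1] with ω h2
    refine ⟨(h2 0).1, fun m => ?_⟩
    filter_upwards [(h2 m).2] with n hn
    omega
  · intro hβ0 hβ
    have h1 : ∀ j : ℕ, ∀ᵐ ω ∂μ, {k | ω ∈ A k}.Infinite ∧ ∃ᶠ n in atTop,
        Nat.nth (· ∈ {k | ω ∈ A k}) (n + 1) = Nat.nth (· ∈ {k | ω ∈ A k}) n + 1 ∧
          NN {k | ω ∈ A k} n = j + 1 - 1 := by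
      intro j
      refine fin_low (μ := μ) (ℱ := ℱ) hL hA (m := j + 1) (by omega) (c := 0) (δ := β / 2) (by linarith)
        (by positivity) ?_
      filter_upwards [key (β / 2) ((β + 1 / 2) / 2) (by linarith) (by linarith)] with ω h2
      filter_upwards [h2, lam_ge 0 (show (β + 1 / 2) / 2 < 1 / 2 by linarith)] with n h3 h4
      exact ⟨h3.1, h3.2.trans h4⟩
    filter_upwards [ae_all_iff.2 h1] with ω h2
    refine ⟨(h2 0).1, fun j => ?_⟩
    exact (h2 j).2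

end

end Pool.Agent.N273.BR
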